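import Pool.Agent.WSatQ97.SemHi

/-! The number of nodes and of wires of the source formulas of the higher links. -/

namespace Pool.Agent.WSatQ97

open Finset Pool.Agent.WSatChain Pool.Agent.WSatAC0 Pool.Agent.ParityAC

section card

variable {k s r : ℕ} {B : Type} [Fintype B]

theorem once_all {h : UH k s r B} (hv : ∀ γ, h ≠ .inl (.gam γ)) {g g' : UH k s r B}
    (hw : wrH g h) (hw' : wrH g' h) : g = g' := by
  by_cases h1 : ¬ hVar h ∨ ∃ p, h = .inr p
  · exact srcH_once h1 hw hw'
  · push Not at h1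
    obtain ⟨h1, h2⟩ := h1
    rcases h with (h | h | h | h | L' | h) | p <;> simp only [hVar] at h1
    · rcases g with (g | g | g | g | L | g) | ⟨p, c⟩ <;> simp only [wrH] at hw
      rcases g' with (g' | g' | g' | g' | L'' | g') | ⟨p'', c''⟩ <;> simp only [wrH] at hw'
      have : L = L'' := Subtype.ext (hw.trans hw'.symm)
      rw [this]
    · exact absurd rfl (hv h)
    · rcases g with (g | g | g | g | L | g) | ⟨p, c⟩ <;> simp only [wrH] at hw
      rcases g' with (g' | g' | g' | g' | L'' | g') | ⟨p'', c''⟩ <;> simp only [wrH] at hw'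
      rw [← hw.2, ← hw'.2, hw.1, hw'.1]
    · exact absurd rfl (h2 p)

/-- the code of a node that uses a variable of the group -/
def cdH : UH k s r B → Option (Bool ⊕ (B × (B → ZMod 2)))
  | .inl .grpG => some (.inl false)
  | .inl .dump => some (.inl true)
  | .inl (.gate L) => L.1.head?.map .inr
  | _ => none

theorem cdH_inj {γ : {γ : B → ZMod 2 // ∑ x, γ x = 0}} {g g' : UH k s r B}
    (hw : wrH g (.inl (.gam γ))) (hw' : wrH g' (.inl (.gam γ))) (h : cdH g = cdH g') : g = g' := by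
  rcases g with (g | g | g | g | L | g) | ⟨p, c⟩ <;> simp only [wrH] at hw <;>
    rcases g' with (g' | g' | g' | g' | L'' | g') | ⟨p'', c''⟩ <;> simp only [wrH] at hw'
  · rfl
  · simp [cdH] at h
  · obtain ⟨p, hp, _⟩ := hw'
    simp [cdH, hp] at h
  · simp [cdH] at h
  · rfl
  · obtain ⟨p, hp, _⟩ := hw'
    simp [cdH, hp] at h
  · obtain ⟨p, hp, _⟩ := hw
    simp [cdH, hp] at h
  · obtain ⟨p, hp, _⟩ := hw
    simp [cdH, hp] at h
  · obtain ⟨p, hp, _⟩ := hw
    obtain ⟨p', hp', _⟩ := hw'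
    simp [cdH, hp, hp'] at h
    subst h
    have : L = L'' := Subtype.ext (hp.trans hp'.symm)
    rw [this]

theorem wires_le : Nat.card {p : UH k s r B × UH k s r B // (srcH k s r B).wire p.1 p.2} ≤
    Nat.card (UH k s r B) + Nat.card (Option (Bool ⊕ (B × (B → ZMod 2))) × (B → ZMod 2)) := by
  classical
  let φ : {p : UH k s r B × UH k s r B // (srcH k s r B).wire p.1 p.2} →
      UH k s r B ⊕ (Option (Bool ⊕ (B × (B → ZMod 2))) × (B → ZMod 2)) := fun p =>
    if h : ∃ γ, p.1.2 = .inl (.gam γ) then .inr (cdH p.1.1, h.choose.1) else .inl p.1.2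
  have hφ : Function.Injective φ := by
    rintro ⟨⟨g, h⟩, hw⟩ ⟨⟨g', h'⟩, hw'⟩ heq
    change wrH g h at hw
    change wrH g' h' at hw'
    by_cases h1 : ∃ γ, h = .inl (.gam γ)
    · by_cases h2 : ∃ γ, h' = .inl (.gam γ)
      · simp only [φ, dif_pos h1, dif_pos h2, Sum.inr.injEq, Prod.mk.injEq] at heq
        have e1 := h1.choose_spec
        have e2 := h2.choose_spec
        have e3 : h1.choose = h2.choose := Subtype.ext heq.2
        have e4 : h = h' := by rw [e1, e2, e3]
        subst e4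
        rw [e1] at hw hw'
        have e5 := cdH_inj hw hw' heq.1
        subst e5
        rfl
      · simp only [φ, dif_pos h1, dif_neg h2, reduceCtorEq] at heq
    · by_cases h2 : ∃ γ, h' = .inl (.gam γ)
      · simp only [φ, dif_neg h1, dif_pos h2, reduceCtorEq] at heq
      · simp only [φ, dif_neg h1, dif_neg h2, Sum.inl.injEq] at heq
        subst heq
        have e5 := once_all (fun γ hγ => h1 ⟨γ, hγ⟩) hw hw'
        subst e5
        rfl
  have := Nat.card_le_card_of_injective φ hφ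
  rwa [Nat.card_sum] at this

theorem card_UH : Nat.card (UH k s r B) = k + Nat.card {γ : B → ZMod 2 // ∑ x, γ x = 0} +
    (2 + (Nat.card {L : Hist B // okL L ∧ L.length ≤ s} +
      Nat.card {L : Hist B // okL L ∧ L.length = s} * Nat.card B * r)) +
      Nat.card {L : Hist B // okL L ∧ L.length = s} * Nat.card B * r * 2 := by
  rw [Nat.card_sum, Nat.card_congr (N0sum k s r B)]
  simp only [Nat.card_sum, Nat.card_prod, Nat.card_eq_fintype_card (α := Bool), Fintype.card_bool,
    Nat.card_eq_fintype_card (α := Fin k), Fintype.card_fin,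
    Nat.card_eq_fintype_card (α := Fin r)]

theorem card_le_H : Nat.card {L : Hist B // okL L ∧ L.length ≤ s} ≤
    (Fintype.card B * 2 ^ Fintype.card B + 1) ^ s := by
  classical
  let φ : {L : Hist B // okL L ∧ L.length ≤ s} → (Fin s → Option (B × (B → ZMod 2))) :=
    fun L i => L.1[i.1]?
  have hφ : Function.Injective φ := by
    intro L L' h
    apply Subtype.ext
    apply List.ext_getElem?
    intro i
    by_cases hi : i < s
    · exact congrFun h ⟨i, hi⟩
    · rw [List.getElem?_eq_none (by have := L.2.2; omega),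
        List.getElem?_eq_none (by have := L'.2.2; omega)]
  have h1 := Nat.card_le_card_of_injective φ hφ
  refine h1.trans (le_of_eq ?_)
  rw [Nat.card_eq_fintype_card]
  simp [ZMod.card]

theorem card_eq_H : Nat.card {L : Hist B // okL L ∧ L.length = s} ≤
    (Fintype.card B * 2 ^ Fintype.card B + 1) ^ s := by
  refine le_trans (Nat.card_le_card_of_injective
    (fun L => (⟨L.1, L.2.1, L.2.2.le⟩ : {L : Hist B // okL L ∧ L.length ≤ s}))
    fun a b h => Subtype.ext (congrArg (fun x => x.1) h)) card_le_H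

end card

theorem four_pow {b : ℕ} : b * 2 ^ b + 1 ≤ 4 ^ b := by
  have h1 : b + 1 ≤ 2 ^ b := Nat.lt_two_pow_self
  have h2 : (4 : ℕ) ^ b = 2 ^ b * 2 ^ b := by
    rw [← mul_pow]
    norm_num
  have h3 : 1 ≤ 2 ^ b := Nat.one_le_two_pow
  rw [h2]
  nlinarith

/-- the number of nodes -/
theorem nodes_le {k s b r Y : ℕ} (hY : Y = 4 ^ (b * (s + 1))) :
    Nat.card (UH k s r (Fin b)) ≤ k + 2 + 2 * Y + 3 * (Y * r) := by
  have h4 := four_pow (b := b)
  have hb : Nat.card (Fin b) = b := by simp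
  have h0 : (b * 2 ^ b + 1) ^ s ≤ 4 ^ (b * s) := by
    rw [pow_mul]
    exact Nat.pow_le_pow_left h4 _
  have h0' : 4 ^ (b * s) * 4 ^ b = Y := by
    rw [hY, ← pow_add]
    ring_nf
  have h1 : Nat.card {L : Hist (Fin b) // okL L ∧ L.length ≤ s} ≤ 4 ^ (b * s) := by
    have := card_le_H (s := s) (B := Fin b)
    rw [Fintype.card_fin] at this
    exact this.trans h0
  have h2 : Nat.card {L : Hist (Fin b) // okL L ∧ L.length = s} ≤ 4 ^ (b * s) := by
    have := card_eq_H (s := s) (B := Fin b)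
    rw [Fintype.card_fin] at this
    exact this.trans h0
  have h5 : b ≤ 4 ^ b := by
    have : b < 2 ^ b := Nat.lt_two_pow_self
    have h6 : (2 : ℕ) ^ b ≤ 4 ^ b := Nat.pow_le_pow_left (by norm_num) b
    omega
  have h3 : Nat.card {γ : Fin b → ZMod 2 // ∑ x, γ x = 0} ≤ Y := by
    refine le_trans (Finite.card_subtype_le _) ?_
    rw [Nat.card_eq_fintype_card]
    simp only [Fintype.card_pi, ZMod.card, Finset.prod_const, Finset.card_univ, Fintype.card_fin]
    have h6 : (2 : ℕ) ^ b ≤ 4 ^ b := Nat.pow_le_pow_left (by norm_num) b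
    have h7 : 1 ≤ 4 ^ (b * s) := Nat.one_le_pow _ _ (by norm_num)
    calc (2 : ℕ) ^ b ≤ 1 * 4 ^ b := by omega
      _ ≤ 4 ^ (b * s) * 4 ^ b := Nat.mul_le_mul_right _ h7
      _ = Y := h0'
  have h7 : Nat.card {L : Hist (Fin b) // okL L ∧ L.length = s} * b ≤ Y := by
    calc _ ≤ 4 ^ (b * s) * 4 ^ b := Nat.mul_le_mul h2 h5
      _ = Y := h0'
  have h8 : 4 ^ (b * s) ≤ Y := by
    rw [hY]
    exact Nat.pow_le_pow_right (by norm_num) (Nat.mul_le_mul_left _ (Nat.le_succ _))
  rw [card_UH, hb]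
  have h9 := Nat.mul_le_mul_right r h7
  omega

/-- the number of wires -/
theorem wires_two {k s b r : ℕ} (hb : 1 ≤ b) (hr : 4 ^ (b * 2) ≤ r) :
    Nat.card {p : UH k s r (Fin b) × UH k s r (Fin b) // (srcH k s r (Fin b)).wire p.1 p.2} ≤
      2 * Nat.card (UH k s r (Fin b)) := by
  refine wires_le.trans ?_
  have h4 := four_pow (b := b)
  have h1 : Nat.card (Option (Bool ⊕ (Fin b × (Fin b → ZMod 2))) × (Fin b → ZMod 2)) =
      (2 + b * 2 ^ b + 1) * 2 ^ b := by
    rw [Nat.card_eq_fintype_card]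
    simp [ZMod.card]
  have h2 : r ≤ Nat.card (UH k s r (Fin b)) := by
    rw [card_UH]
    have hb' : Nat.card (Fin b) = b := by simp
    rw [hb']
    have h3 : 1 ≤ Nat.card {L : Hist (Fin b) // okL L ∧ L.length = s} := by
      have key : ∀ l, ∃ L : Hist (Fin b), okL L ∧ L.length = l := by
        intro l
        induction l with
        | zero => exact ⟨[], trivial, rfl⟩
        | succ l ih =>
          obtain ⟨L, h1, h2⟩ := ih
          refine ⟨(⟨0, hb⟩, fun x => if x = ⟨0, hb⟩ then hd 0 L ⟨0, hb⟩ + 1 else 0) :: L,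
            ⟨h1, Or.inr ?_⟩, by simp [h2]⟩
          simp
      obtain ⟨L, h1, h2⟩ := key s
      have : Nonempty {L : Hist (Fin b) // okL L ∧ L.length = s} := ⟨⟨L, h1, h2⟩⟩
      exact Nat.card_pos
    have h5 : 1 * 1 * r ≤ Nat.card {L : Hist (Fin b) // okL L ∧ L.length = s} * b * r := by
      gcongr
    omega
  have h3 : (2 + b * 2 ^ b + 1) * 2 ^ b ≤ r := by
    refine le_trans ?_ hr
    have e1 : (4 : ℕ) ^ (b * 2) = 4 ^ b * 4 ^ b := by
      rw [pow_mul, sq]
    have e2 : (4 : ℕ) ^ b = 2 ^ b * 2 ^ b := by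
      rw [← mul_pow]
      norm_num
    have e3 : 2 ≤ 2 ^ b := by
      calc 2 = 2 ^ 1 := rfl
        _ ≤ 2 ^ b := Nat.pow_le_pow_right (by norm_num) hb
    rw [e1]
    generalize (2 : ℕ) ^ b = x at *
    generalize (4 : ℕ) ^ b = y at *
    have e4 : 2 + b * x + 1 ≤ y + 2 := by omega
    calc (2 + b * x + 1) * x ≤ (y + 2) * x := Nat.mul_le_mul_right _ e4
      _ ≤ y * y := by
        subst e2
        nlinarith [Nat.mul_le_mul e3 e3, Nat.mul_le_mul (Nat.mul_le_mul e3 e3) e3]
  rw [h1]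
  omega

end Pool.Agent.WSatQ97
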