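import Pool.Agent.WSatQ97.CoreHi
import Pool.Agent.WSatQ97.CardHi
import Pool.Agent.WSatAC0.Final

/-! The higher links. -/

namespace Pool.Agent.WSatQ97

open Finset Pool.Agent.WSatChain Pool.Agent.WSatAC0 Pool.Agent.ParityAC Pool.Agent.WSatCount

/-- few questions, compared with the number of positions -/
theorem floor_le {Y a n C : ℕ} {c0 δ : ℝ} (ha : 4 ≤ min δ (1 / 2) * (a + 2))
    (hn : n + 1 ≤ Y ^ (a + 2)) (hC : c0 ≤ C) (hY : 2 * C ≤ Y) (hY1 : 1 ≤ Y) :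
    2 * ⌊c0 * ((n : ℝ) + 1) ^ (1 - δ)⌋₊ ≤ Y ^ (a - 1) := by
  set δ' := min δ (1 / 2) with hδ'
  have h1 : δ' ≤ 1 / 2 := min_le_right _ _
  have h2 : δ' ≤ δ := min_le_left _ _
  have ha6 : 6 ≤ a := by
    have h3 : (4 : ℝ) ≤ 1 / 2 * (a + 2) :=
      ha.trans (mul_le_mul_of_nonneg_right h1 (by positivity))
    have h4 : (6 : ℝ) ≤ a := by linarith
    exact_mod_cast h4
  have hn1 : (1 : ℝ) ≤ (n : ℝ) + 1 := by
    have : (0 : ℝ) ≤ n := Nat.cast_nonneg n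
    linarith
  have hYr : (1 : ℝ) ≤ (Y : ℝ) := by exact_mod_cast hY1
  have e1 : ((n : ℝ) + 1) ^ (1 - δ) ≤ (Y : ℝ) ^ (a - 2) := by
    calc ((n : ℝ) + 1) ^ (1 - δ) ≤ ((n : ℝ) + 1) ^ (1 - δ') :=
          Real.rpow_le_rpow_of_exponent_le hn1 (by linarith)
      _ ≤ ((Y : ℝ) ^ (a + 2)) ^ (1 - δ') := by
          apply Real.rpow_le_rpow (by linarith) (by exact_mod_cast hn) (by linarith)
      _ = (Y : ℝ) ^ (((a + 2 : ℕ) : ℝ) * (1 - δ')) := by
          rw [← Real.rpow_natCast, ← Real.rpow_mul (by linarith)]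
      _ ≤ (Y : ℝ) ^ (((a - 2 : ℕ) : ℝ)) := by
          apply Real.rpow_le_rpow_of_exponent_le hYr
          have : ((a - 2 : ℕ) : ℝ) = (a : ℝ) - 2 := by
            rw [Nat.cast_sub (by omega)]
            norm_num
          rw [this]
          push_cast
          nlinarith
      _ = _ := Real.rpow_natCast _ _
  have e2 : c0 * ((n : ℝ) + 1) ^ (1 - δ) ≤ ((C * Y ^ (a - 2) : ℕ) : ℝ) := by
    push_cast
    have h5 : (0 : ℝ) ≤ ((n : ℝ) + 1) ^ (1 - δ) := by positivity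
    calc c0 * ((n : ℝ) + 1) ^ (1 - δ) ≤ C * ((n : ℝ) + 1) ^ (1 - δ) :=
          mul_le_mul_of_nonneg_right hC h5
      _ ≤ C * (Y : ℝ) ^ (a - 2) := mul_le_mul_of_nonneg_left e1 (Nat.cast_nonneg _)
  have e3 : ⌊c0 * ((n : ℝ) + 1) ^ (1 - δ)⌋₊ ≤ C * Y ^ (a - 2) := by
    have := Nat.floor_le_floor e2
    rwa [Nat.floor_natCast] at this
  calc 2 * ⌊c0 * ((n : ℝ) + 1) ^ (1 - δ)⌋₊ ≤ 2 * (C * Y ^ (a - 2)) := Nat.mul_le_mul_left _ e3
    _ = (2 * C) * Y ^ (a - 2) := by ring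
    _ ≤ Y * Y ^ (a - 2) := Nat.mul_le_mul_right _ hY
    _ = Y ^ (a - 1) := by
        rw [← pow_succ']
        congr 1
        omega

/-- the number of output bits -/
theorem ix_le {V : Type} {E e1 S Y u : ℕ} (F : Fin E → Red V) (hE : E ≤ e1) (hM : ∀ i, (F i).M ≤ S)
    (hK : ∀ i, (F i).K ≤ e1) (hS : S = Y ^ u) (heY : e1 ≤ Y) (hY : 8 ≤ Y) (hu : 1 ≤ u) :
    ∑ i, Fintype.card (Ix (F i)) ≤ Y ^ (2 * u + 2) := by
  have h1 : ∀ i, Fintype.card (Ix (F i)) ≤ Y ^ (2 * u + 1) := by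
    intro i
    rw [card_Ix]
    have hYS : Y ≤ S := by
      rw [hS]
      calc Y = Y ^ 1 := (pow_one Y).symm
        _ ≤ Y ^ u := Nat.pow_le_pow_right (by omega) hu
    have hS1 : 1 ≤ S := by omega
    have h2 : (F i).M * 6 ≤ 6 * (S * S) := by
      have := hM i
      have h3 : S ≤ S * S := Nat.le_mul_of_pos_left _ hS1
      nlinarith
    have h3 : (F i).M * (F i).M ≤ S * S := Nat.mul_le_mul (hM i) (hM i)
    have h4 : (F i).K ≤ S * S := by
      have := hK i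
      have h3 : S ≤ S * S := Nat.le_mul_of_pos_left _ hS1
      omega
    calc _ ≤ 8 * (S * S) := by omega
      _ ≤ Y * (S * S) := Nat.mul_le_mul_right _ hY
      _ = _ := by
        rw [hS, ← pow_add, ← pow_succ']
        congr 1
        omega
  calc ∑ i, Fintype.card (Ix (F i)) ≤ ∑ _i : Fin E, Y ^ (2 * u + 1) := Finset.sum_le_sum fun i _ => h1 i
    _ = E * Y ^ (2 * u + 1) := by simp
    _ ≤ Y * Y ^ (2 * u + 1) := Nat.mul_le_mul_right _ (hE.trans heY)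
    _ = _ := by rw [← pow_succ']

/-- **The links above the first one.** -/
theorem not_slice_hi (c0 δ : ℝ) (hδ : 0 < δ) (k t d : ℕ) :
    ¬ SliceTT (fun n => c0 * ((n : ℝ) + 1) ^ (1 - δ)) (k + 1) (Sparse (GAMMA (t + 2) 1))
      (GAMMA (t + 1) d) := by
  rintro ⟨e1, F, T, hF, hred⟩
  -- the numbers
  obtain ⟨a, ha⟩ : ∃ a : ℕ, 4 ≤ min δ (1 / 2) * ((a : ℝ) + 2) := by
    have hm : 0 < min δ (1 / 2) := lt_min hδ (by norm_num)
    obtain ⟨a, ha⟩ := exists_nat_ge (4 / min δ (1 / 2))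
    refine ⟨a, ?_⟩
    rw [div_le_iff₀ hm] at ha
    nlinarith
  obtain ⟨C, hC⟩ := exists_nat_ge c0
  obtain ⟨u, hu⟩ : ∃ u, u = (a + 2) * e1 + 1 := ⟨_, rfl⟩
  obtain ⟨m, hm⟩ : ∃ m, m = 2 * u + 3 := ⟨_, rfl⟩
  obtain ⟨X, hX⟩ : ∃ X, X = (u + 1) * (e1 + 1) * (t + 1) + 2 := ⟨_, rfl⟩
  obtain ⟨q1, hq1⟩ : ∃ q1, q1 = cL d (2 ^ m) + (t + 1) * (6 * 2 ^ m) + 3 * 2 ^ m + 2 * 2 ^ m :=
    ⟨_, rfl⟩
  obtain ⟨K1, hK1⟩ : ∃ K1, K1 = (16 * q1 + 1) * (e1 * (e1 + 1) + 1) *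
    (16 * (2 * (t + 2) * X)) ^ (t + 1) := ⟨_, rfl⟩
  obtain ⟨b, hb⟩ : ∃ b, b = K1 + (k + 16) + 2 * C + e1 := ⟨_, rfl⟩
  obtain ⟨Y, hY⟩ : ∃ Y, Y = 4 ^ (b * (t + 2)) := ⟨_, rfl⟩
  obtain ⟨r, hr⟩ : ∃ r, r = Y ^ a := ⟨_, rfl⟩
  have ha6 : 6 ≤ a := by
    have h3 : (4 : ℝ) ≤ 1 / 2 * (a + 2) :=
      ha.trans (mul_le_mul_of_nonneg_right (min_le_right _ _) (by positivity))
    have h4 : (6 : ℝ) ≤ a := by linarith
    exact_mod_cast h4
  have hbY : b ≤ Y := by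
    have h1 : b < 2 ^ b := Nat.lt_two_pow_self
    have h2 : (2 : ℕ) ^ b ≤ 4 ^ b := Nat.pow_le_pow_left (by norm_num) b
    have h3 : (4 : ℕ) ^ b ≤ 4 ^ (b * (t + 2)) :=
      Nat.pow_le_pow_right (by norm_num) (Nat.le_mul_of_pos_right _ (by omega))
    omega
  have hY16 : 16 ≤ Y := by omega
  have hb1 : 1 ≤ b := by omega
  have hr1 : 1 ≤ r := by
    rw [hr]
    exact Nat.one_le_pow _ _ (by omega)
  have hYp : ∀ j, 1 ≤ Y ^ j := fun j => Nat.one_le_pow _ _ (by omega)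
  obtain ⟨n, e, he⟩ : ∃ (n : ℕ) (e : UH k (t + 1) r (Fin b) ≃ Fin n), Cns e :=
    ⟨_, num _ _, num_cns⟩
  have hn : n = Nat.card (UH k (t + 1) r (Fin b)) := by
    rw [Nat.card_congr e, Nat.card_fin]
  have hnle : n + 1 ≤ Y ^ (a + 2) := by
    have h1 := nodes_le (k := k) (s := t + 1) (b := b) (r := r) (Y := Y) hY
    rw [← hn] at h1
    have h2 : Y * r = Y ^ (a + 1) := by rw [hr, ← pow_succ']
    have h3 : Y ≤ Y ^ (a + 1) := by
      calc Y = Y ^ 1 := (pow_one Y).symm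
        _ ≤ Y ^ (a + 1) := Nat.pow_le_pow_right (by omega) (by omega)
    have h4 : Y ^ (a + 2) = Y * Y ^ (a + 1) := by rw [← pow_succ']
    have h5 : 16 * Y ^ (a + 1) ≤ Y * Y ^ (a + 1) := Nat.mul_le_mul_right _ hY16
    rw [h2] at h1
    omega
  -- the circuits
  have hA : ∀ w, Sparse (GAMMA (t + 2) 1) _ (mp e (sw (srcH k (t + 1) r (Fin b)) w)) := by
    intro w
    apply mp_sparse (isoInv_gamma (t + 2) 1)
    refine ⟨sw_gamma srcH_ok w le_rfl (srcH_level (by omega)), ?_⟩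
    rw [sw_wires]
    apply wires_two hb1
    rw [hr, hY, ← pow_mul]
    apply Nat.pow_le_pow_right (by norm_num)
    have h1 : b * 2 ≤ b * (t + 2) := Nat.mul_le_mul_left _ (by omega)
    exact h1.trans (Nat.le_mul_of_pos_right _ (by omega))
  have hred' := fun w => hred n _ (hA w)
  have hFn := hF n
  have hEY : e1 ≤ Y := by omega
  have hM : ∀ i, (F n i).M ≤ Y ^ u := by
    intro i
    refine (hFn i).2.1.trans ?_
    calc e1 * (n + 1) ^ e1 ≤ Y * (Y ^ (a + 2)) ^ e1 :=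
          Nat.mul_le_mul hEY (Nat.pow_le_pow_left hnle _)
      _ = Y ^ u := by rw [← pow_mul, ← pow_succ', hu]
  have hK : ∀ i, (F n i).K ≤ e1 := fun i => (hFn i).2.2
  have hI := ix_le (F n) le_rfl hM hK rfl hEY (by omega) (by omega)
  have hq := floor_le (Y := Y) ha hnle hC (by omega) (by omega)
  have hS' : (Y ^ u + 1) ^ (e1 + 1) ≤ (Y ^ (u + 1)) ^ (e1 + 1) := by
    apply Nat.pow_le_pow_left
    rw [pow_succ]
    have := hYp u
    nlinarith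
  have hneb : Nonempty (Fin b) := ⟨⟨0, hb1⟩⟩
  refine core_hi (d := d) hr1 (B := Fin b) (he := he) (F := F n) (T := T n) (m := m)
    (q := ⌊c0 * ((n : ℝ) + 1) ^ (1 - δ)⌋₊)
    (S := Y ^ u) (S' := (Y ^ (u + 1)) ^ (e1 + 1)) (σ' := 2 * b * (t + 2) * X) (s' := e1 + 1)
    (fun i => ⟨fun p => ((hFn i).1.dom p).floor, fun p => ((hFn i).1.isVar p).floor,
      fun p => ((hFn i).1.isAnd p).floor, fun p => ((hFn i).1.isOr p).floor,
      fun p => ((hFn i).1.isNot p).floor, fun p => ((hFn i).1.isOut p).floor,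
      fun p q => ((hFn i).1.wire p q).floor, fun j => ((hFn i).1.par j).floor⟩)
    ?_ (fun i w => (hred' w).1 i) (fun w => (hred' w).2) (hYp u) hM ?_ ?_ ?_ (by omega) ?_ ?_ ?_
  · -- output bits
    calc (∑ i, Fintype.card (Ix (F n i))) * (2 * ⌊c0 * ((n : ℝ) + 1) ^ (1 - δ)⌋₊) ^ m
        ≤ Y ^ (2 * u + 2) * (Y ^ (a - 1)) ^ m := Nat.mul_le_mul hI (Nat.pow_le_pow_left hq _)
      _ = Y ^ (2 * u + 2 + (a - 1) * m) := by rw [← pow_mul, ← pow_add]
      _ < Y ^ (a * m) := by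
          apply Nat.pow_lt_pow_right (by omega)
          have h1 : a * m = (a - 1) * m + m := by
            obtain ⟨a', rfl⟩ : ∃ a', a = a' + 1 := ⟨a - 1, by omega⟩
            simp only [Nat.add_sub_cancel]
            ring
          omega
      _ = r ^ m := by rw [hr, ← pow_mul]
  · intro i
    refine le_trans ?_ hS'
    have h1 := hK i
    calc Y ^ u + (F n i).K ≤ Y ^ u + e1 := by omega
      _ ≤ (Y ^ u + 1) ^ (e1 + 1) := by
          have h3 := hYp u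
          have h4 : e1 + 1 ≤ (Y ^ u + 1) ^ e1 :=
            (Nat.lt_two_pow_self (n := e1)).trans_le (Nat.pow_le_pow_left (by omega) _)
          rw [pow_succ]
          nlinarith
  · intro i
    refine le_trans ?_ hS'
    calc ((F n i).M + 1) ^ ((F n i).K + 1) ≤ (Y ^ u + 1) ^ ((F n i).K + 1) :=
          Nat.pow_le_pow_left (Nat.succ_le_succ (hM i)) _
      _ ≤ (Y ^ u + 1) ^ (e1 + 1) := Nat.pow_le_pow_right (Nat.succ_pos _)
          (Nat.succ_le_succ (hK i))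
  · have hX1 : 1 ≤ X := by
      rw [hX]
      exact Nat.succ_le_of_lt (by positivity)
    have h1 : 1 ≤ b * (t + 2) * X := Nat.mul_pos (Nat.mul_pos (by omega) (by omega)) (by omega)
    calc 1 ≤ b * (t + 2) * X := h1
      _ ≤ 2 * (b * (t + 2) * X) := by omega
      _ = _ := by ring
  · calc e1 < 2 ^ e1 := Nat.lt_two_pow_self
      _ ≤ 2 ^ (e1 + 1) := Nat.pow_le_pow_right (by norm_num) (by omega)
  · calc e1 * ((Y ^ (u + 1)) ^ (e1 + 1)) ^ (t + 1)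
        ≤ Y * ((Y ^ (u + 1)) ^ (e1 + 1)) ^ (t + 1) := Nat.mul_le_mul_right _ hEY
      _ = Y ^ ((u + 1) * (e1 + 1) * (t + 1) + 1) := by
          rw [← pow_mul, ← pow_mul, ← pow_succ']
          congr 1
          ring
      _ < Y ^ X := Nat.pow_lt_pow_right (by omega) (by omega)
      _ = 2 ^ (2 * b * (t + 2) * X) := by
          rw [hY, ← pow_mul, show (4 : ℕ) = 2 ^ 2 by norm_num, ← pow_mul]
          congr 1
          ring
  · rw [Fintype.card_fin]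
    have hX1 : 1 ≤ X := by
      rw [hX]
      exact Nat.succ_le_of_lt (by positivity)
    have hσ1 : 1 ≤ 2 * b * (t + 2) * X := by
      have h1 : 1 ≤ b * (t + 2) * X := Nat.mul_pos (Nat.mul_pos (by omega) (by omega)) (by omega)
      calc 1 ≤ b * (t + 2) * X := h1
        _ ≤ 2 * (b * (t + 2) * X) := by omega
        _ = _ := by ring
    refine (bE_le e1 (2 * b * (t + 2) * X) (e1 + 1) hσ1 (t + 1) _).trans ?_
    rw [← hq1]
    calc (16 * q1 + 1) * (e1 * (e1 + 1) + 1) * (16 * (2 * b * (t + 2) * X)) ^ (t + 1)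
        = K1 * b ^ (t + 1) := by
          rw [hK1, mul_assoc ((16 * q1 + 1) * (e1 * (e1 + 1) + 1)) _ (b ^ (t + 1)), ← mul_pow]
          congr 2
          ring
      _ ≤ b * b ^ (t + 1) := Nat.mul_le_mul_right _ (by omega)
      _ = b ^ (t + 2) := by rw [← pow_succ']

end Pool.Agent.WSatQ97
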