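import Pool.Agent.WSatAC0.Gam11
import Pool.Agent.WSatAC0.Query

/-! Weighted satisfiability of conjunctions of literals whose bits depend on few variables. -/

namespace Pool.Agent.WSatQ97

open Finset Pool.Agent.WSatChain Pool.Agent.WSatAC0 Pool.Agent.ParityAC Pool.Agent.WSatCount

section cert

variable {V : Type}

/-- `x` and `y` agree on `R` -/
def Ag (R : Finset V) (x y : V → Bool) : Prop := ∀ v ∈ R, x v = y v

/-- true points have certificates of size `q` -/
def Cert (q : ℕ) (P : (V → Bool) → Prop) : Prop :=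
  ∀ x, P x → ∃ R : Finset V, R.card ≤ q ∧ ∀ y, Ag R x y → P y

theorem Cert.mono {q q' : ℕ} (h : q ≤ q') {P : (V → Bool) → Prop} (hP : Cert q P) : Cert q' P := by
  intro x hx
  obtain ⟨R, h1, h2⟩ := hP x hx
  exact ⟨R, h1.trans h, h2⟩

theorem jcert {q : ℕ} {f : (V → Bool) → Bool} (h : J q f) (b : Bool) :
    Cert q (fun x => f x = b) := by
  obtain ⟨R, h1, h2⟩ := h
  intro x hx
  refine ⟨R, h1, fun y hy => ?_⟩
  show f y = b
  rw [← h2 x y hy]
  exact hx

variable [DecidableEq V]

theorem Cert.and {q q' : ℕ} {P P' : (V → Bool) → Prop} (h : Cert q P) (h' : Cert q' P') :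
    Cert (q + q') (fun x => P x ∧ P' x) := by
  rintro x ⟨hx, hx'⟩
  obtain ⟨R, h1, h2⟩ := h x hx
  obtain ⟨R', h1', h2'⟩ := h' x hx'
  refine ⟨R ∪ R', (Finset.card_union_le _ _).trans (Nat.add_le_add h1 h1'), fun y hy => ⟨?_, ?_⟩⟩
  · exact h2 y fun v hv => hy v (Finset.mem_union_left _ hv)
  · exact h2' y fun v hv => hy v (Finset.mem_union_right _ hv)

omit [DecidableEq V] in
theorem Cert.ex {ι : Type} {q : ℕ} {P : ι → (V → Bool) → Prop} (h : ∀ i, Cert q (P i)) :
    Cert q (fun x => ∃ i, P i x) := by
  rintro x ⟨i, hi⟩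
  obtain ⟨R, h1, h2⟩ := h i x hi
  exact ⟨R, h1, fun y hy => ⟨i, h2 y hy⟩⟩

omit [DecidableEq V] in
theorem Cert.or {q : ℕ} {P P' : (V → Bool) → Prop} (h : Cert q P) (h' : Cert q P') :
    Cert q (fun x => P x ∨ P' x) := by
  rintro x (hx | hx)
  · obtain ⟨R, h1, h2⟩ := h x hx
    exact ⟨R, h1, fun y hy => Or.inl (h2 y hy)⟩
  · obtain ⟨R, h1, h2⟩ := h' x hx
    exact ⟨R, h1, fun y hy => Or.inr (h2 y hy)⟩

/-- many true predicates of a family -/
theorem Cert.count {ι : Type} [Fintype ι] {q : ℕ} {P : ι → (V → Bool) → Prop}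
    [∀ x, DecidablePred fun i => P i x] (h : ∀ i, Cert q (P i)) (m : ℕ) :
    Cert (m * q) (fun x => m ≤ (univ.filter fun i => P i x).card) := by
  classical
  intro x hx
  obtain ⟨s, hs, hm⟩ := Finset.exists_subset_card_eq hx
  have h1 : ∀ i : ι, ∃ R : Finset V, R.card ≤ q ∧ (i ∈ s → ∀ y, Ag R x y → P i y) := by
    intro i
    by_cases hi : i ∈ s
    · obtain ⟨R, a, b⟩ := h i x (Finset.mem_filter.1 (hs hi)).2
      exact ⟨R, a, fun _ => b⟩
    · exact ⟨∅, by simp, fun h => absurd h hi⟩
  choose R hR1 hR2 using h1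
  refine ⟨s.biUnion R, ?_, ?_⟩
  · refine Finset.card_biUnion_le.trans ?_
    calc ∑ i ∈ s, (R i).card ≤ ∑ _i ∈ s, q := Finset.sum_le_sum fun i _ => hR1 i
      _ = m * q := by rw [Finset.sum_const, hm, smul_eq_mul]
  · intro y hy
    rw [← hm]
    apply Finset.card_le_card
    intro i hi
    rw [Finset.mem_filter]
    refine ⟨Finset.mem_univ _, hR2 i hi y ?_⟩
    intro v hv
    exact hy v (Finset.mem_biUnion.2 ⟨i, hi, hv⟩)

/-- all predicates of a family become constant -/
theorem fix_all {ι : Type} (s : Finset ι) {q : ℕ} {P : ι → (V → Bool) → Prop}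
    (h : ∀ i, Cert q (P i) ∨ Cert q (fun x => ¬ P i x)) :
    ∃ (D : Finset V) (x : V → Bool), D.card ≤ s.card * q ∧
      ∀ i ∈ s, ∀ y y', Ag D x y → Ag D x y' → (P i y ↔ P i y') := by
  classical
  induction s using Finset.induction_on with
  | empty => exact ⟨∅, fun _ => false, by simp, by simp⟩
  | insert a s ha ih =>
    obtain ⟨D, x, h1, h2⟩ := ih
    have hc : (insert a s).card * q = s.card * q + q := by
      rw [Finset.card_insert_of_notMem ha]
      ring
    have key : ∀ Q : (V → Bool) → Prop, Cert q Q →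
        ∃ (D' : Finset V) (x' : V → Bool), D'.card ≤ s.card * q + q ∧ (∀ y, Ag D' x' y → Ag D x y) ∧
          ∀ y y', Ag D' x' y → Ag D' x' y' → (Q y ↔ Q y') := by
      intro Q hQ
      by_cases hex : ∃ y, Ag D x y ∧ Q y
      · obtain ⟨y0, hy0, hQy⟩ := hex
        obtain ⟨R, h3, h4⟩ := hQ y0 hQy
        refine ⟨D ∪ R, y0, (Finset.card_union_le _ _).trans (Nat.add_le_add h1 h3), ?_, ?_⟩
        · intro y hy v hv
          rw [hy0 v hv]
          exact hy v (Finset.mem_union_left _ hv)
        · intro y y' hy hy'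
          have a1 := h4 y fun v hv => hy v (Finset.mem_union_right _ hv)
          have a2 := h4 y' fun v hv => hy' v (Finset.mem_union_right _ hv)
          exact ⟨fun _ => a2, fun _ => a1⟩
      · push Not at hex
        refine ⟨D, x, h1.trans (Nat.le_add_right _ _), fun _ h => h, ?_⟩
        intro y y' hy hy'
        exact ⟨fun h => absurd h (hex y hy), fun h => absurd h (hex y' hy')⟩
    have key2 : ∃ (D' : Finset V) (x' : V → Bool), D'.card ≤ s.card * q + q ∧
        (∀ y, Ag D' x' y → Ag D x y) ∧ ∀ y y', Ag D' x' y → Ag D' x' y' → (P a y ↔ P a y') := by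
      rcases h a with h3 | h3
      · exact key _ h3
      · obtain ⟨D', x', a1, a2, a3⟩ := key _ h3
        exact ⟨D', x', a1, a2, fun y y' hy hy' => not_iff_not.1 (a3 y y' hy hy')⟩
    obtain ⟨D', x', a1, a2, a3⟩ := key2
    refine ⟨D', x', by rw [hc]; exact a1, ?_⟩
    intro i hi y y' hy hy'
    rcases Finset.mem_insert.1 hi with rfl | hi
    · exact a3 y y' hy hy'
    · exact h2 i hi y y' (a2 y hy) (a2 y' hy')

/-- **unambiguous families**: if no member is true at `x`, then this has a small certificate -/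
theorem unamb {ι : Type} {Q : ℕ} {W : ι → (V → Bool) → Prop} {S : ι → Finset V}
    (hS : ∀ i, (S i).card ≤ Q) (hW : ∀ i x y, Ag (S i) x y → (W i x ↔ W i y)) {x : V → Bool}
    (hx : ∀ i, ¬ W i x) :
    ∀ (a : ℕ) (R : Finset V), (∀ y, Ag R x y → ∀ i j, W i y → W j y → i = j) →
      (∀ y, Ag R x y → ∀ i, W i y → (S i \ R).card ≤ a) →
      ∃ R' : Finset V, R ⊆ R' ∧ R'.card ≤ R.card + a * Q ∧ ∀ y, Ag R' x y → ∀ i, ¬ W i y := by
  intro a
  induction a with
  | zero =>
    intro R _ h
    refine ⟨R, Finset.Subset.refl _, by simp, ?_⟩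
    intro y hy i hi
    have h1 := h y hy i hi
    have h2 : S i ⊆ R := by
      rw [← Finset.sdiff_eq_empty_iff_subset, ← Finset.card_eq_zero]
      omega
    apply hx i
    rw [hW i x y fun v hv => hy v (h2 hv)]
    exact hi
  | succ a ih =>
    intro R hu h
    by_cases hex : ∃ y, Ag R x y ∧ ∃ i, W i y
    · obtain ⟨y, hy, i, hi⟩ := hex
      have h1 : ∀ y', Ag (R ∪ S i) x y' → Ag R x y' :=
        fun y' hy' v hv => hy' v (Finset.mem_union_left _ hv)
      have hstep : ∀ y', Ag (R ∪ S i) x y' → ∀ j, W j y' → (S j \ (R ∪ S i)).card ≤ a := by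
        intro y' hy' j hj
        have h2 := h y' (h1 y' hy') j hj
        have h3 : ∃ v ∈ S j, v ∈ S i ∧ v ∉ R := by
          by_contra hcon
          push Not at hcon
          let z : V → Bool := fun v => if v ∈ S i then y v else y' v
          have hz : Ag R x z := by
            intro v hv
            simp only [z]
            split
            · exact hy v hv
            · exact hy' v (Finset.mem_union_left _ hv)
          have hzi : W i z := by
            rw [hW i z y]
            · exact hi
            · intro v hv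
              simp only [z, if_pos hv]
          have hzj : W j z := by
            rw [hW j z y']
            · exact hj
            · intro v hv
              simp only [z]
              split
              · rename_i h5
                have h6 := hcon v hv h5
                rw [← hy v h6, hy' v (Finset.mem_union_left _ h6)]
              · rfl
          have hij := hu z hz i j hzi hzj
          subst hij
          apply hx i
          rw [hW i x y]
          · exact hi
          · intro v hv
            exact hy v (hcon v hv hv)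
        obtain ⟨v, v1, v2, v3⟩ := h3
        have h4 : S j \ (R ∪ S i) ⊆ (S j \ R).erase v := by
          intro u hu'
          rw [Finset.mem_sdiff, Finset.mem_union, not_or] at hu'
          rw [Finset.mem_erase, Finset.mem_sdiff]
          refine ⟨?_, hu'.1, hu'.2.1⟩
          rintro rfl
          exact hu'.2.2 v2
        have h5 := Finset.card_le_card h4
        rw [Finset.card_erase_of_mem (Finset.mem_sdiff.2 ⟨v1, v3⟩)] at h5
        omega
      obtain ⟨R', b1, b2, b3⟩ := ih (R ∪ S i) (fun y' hy' => hu y' (h1 y' hy')) hstep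
      refine ⟨R', Finset.subset_union_left.trans b1, ?_, b3⟩
      have h2 := Finset.card_union_le R (S i)
      have h3 := hS i
      have h4 : (a + 1) * Q = a * Q + Q := by ring
      omega
    · push Not at hex
      exact ⟨R, Finset.Subset.refl _, Nat.le_add_right _ _, fun y hy i => hex y hy i⟩

end cert

section lo

variable {V : Type} [DecidableEq V] {F : Red V} {q : ℕ}

theorem fPV_cert (hF : F.All (J q)) (v : Fin F.M) : Cert (5 * q) (fun x => fPV F v x = true) := by
  have h1 : Cert (2 * q) (fun x => F.dom v x = true ∧ F.isVar v x = true) :=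
    ((jcert (hF.dom v) true).and (jcert (hF.isVar v) true)).mono (by omega)
  have h2 : Cert (3 * q) (fun x => F.isOut v x = true ∨ ∃ p : Fin F.M,
      (F.dom p x = true ∧ F.isNot p x = false) ∧ F.wire p v x = true) := by
    refine Cert.or ((jcert (hF.isOut v) true).mono (by omega)) (Cert.ex fun p => ?_)
    exact (((jcert (hF.dom p) true).and (jcert (hF.isNot p) false)).and
      (jcert (hF.wire p v) true)).mono (by omega)
  have h3 := h1.and h2
  have e : (fun x => fPV F v x = true) = fun x => (F.dom v x = true ∧ F.isVar v x = true) ∧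
      (F.isOut v x = true ∨ ∃ p : Fin F.M,
      (F.dom p x = true ∧ F.isNot p x = false) ∧ F.wire p v x = true) := by
    funext x
    simp only [fPV, fPos, Bool.and_eq_true, Bool.or_eq_true, decide_eq_true_eq,
      Bool.not_eq_true']
  rw [e]
  exact h3.mono (by omega)

theorem fNeg_cert (hF : F.All (J q)) (v : Fin F.M) : Cert (3 * q) (fun x => fNeg F v x = true) := by
  have e : (fun x => fNeg F v x = true) = fun x => ∃ p : Fin F.M,
      (F.dom p x = true ∧ F.isNot p x = true) ∧ F.wire p v x = true := by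
    funext x
    simp only [fNeg, Bool.and_eq_true, decide_eq_true_eq]
  rw [e]
  refine Cert.ex fun p => ?_
  exact (((jcert (hF.dom p) true).and (jcert (hF.isNot p) true)).and
      (jcert (hF.wire p v) true)).mono (by omega)

/-- some OR gate has no input -/
def emp (F : Red V) (x : V → Bool) : Prop :=
  ∃ g : Fin F.M, (F.dom g x = true ∧ F.isOr g x = true) ∧
    ∀ h : Fin F.M, ¬ (F.dom h x = true ∧ F.wire g h x = true)

theorem emp_cert (hF : F.All (J q)) (hG : ∀ x, GAMMA 1 1 _ (F.apply x)) :
    Cert (2 * q + 2 * q * (2 * q)) (emp F) := by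
  classical
  rintro x ⟨g, hg, hx⟩
  obtain ⟨R0, hR0, hR0'⟩ := ((jcert (hF.dom g) true).and (jcert (hF.isOr g) true)) x hg
  have h1 : ∀ h : Fin F.M, ∃ R : Finset V, R.card ≤ 2 * q ∧ ∀ x y, Ag R x y →
      ((F.dom h x = true ∧ F.wire g h x = true) ↔ (F.dom h y = true ∧ F.wire g h y = true)) := by
    intro h
    obtain ⟨R, a1, a2⟩ := hF.dom h
    obtain ⟨R', a1', a2'⟩ := hF.wire g h
    refine ⟨R ∪ R', ?_, ?_⟩
    · have := Finset.card_union_le R R'
      omega
    · intro x y hxy
      rw [a2 x y fun v hv => hxy v (Finset.mem_union_left _ hv),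
        a2' x y fun v hv => hxy v (Finset.mem_union_right _ hv)]
  choose S hS1 hS2 using h1
  have hu : ∀ y, Ag R0 x y → ∀ i j : Fin F.M, (F.dom i y = true ∧ F.wire g i y = true) →
      (F.dom j y = true ∧ F.wire g j y = true) → i = j := by
    intro y hy i j hi hj
    have hg' := hR0' y hy
    have hfin := univ_finite F y
    have h5 := or_child_unique (hG y) (p := ⟨g, hg'.1⟩) (g := ⟨i, hi.1⟩) (h := ⟨j, hj.1⟩)
      hg'.2 hi.2 hj.2
    exact congrArg (fun z => z.1) h5
  have hb : ∀ y, Ag R0 x y → ∀ i : Fin F.M, (F.dom i y = true ∧ F.wire g i y = true) →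
      (S i \ R0).card ≤ 2 * q := by
    intro y _ i _
    exact (Finset.card_le_card Finset.sdiff_subset).trans (hS1 i)
  obtain ⟨R', b1, b2, b3⟩ := unamb (W := fun (h : Fin F.M) x => F.dom h x = true ∧
    F.wire g h x = true) (S := S) hS1 hS2 hx (2 * q) R0 hu hb
  refine ⟨R', by omega, ?_⟩
  intro y hy
  exact ⟨g, hR0' y fun v hv => hy v (b1 hv), b3 y hy⟩

/-- the predicates that determine whether the image is satisfiable in the right weight -/
noncomputable def prd (F : Red V) : Unit ⊕ (Unit ⊕ (Fin (F.K + 2) ⊕ Fin F.K)) → (V → Bool) → Prop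
  | .inl _, x => emp F x
  | .inr (.inl _), x => ∃ v, fPV F v x = true ∧ fNeg F v x = true
  | .inr (.inr (.inl m)), x => m.1 ≤ (univ.filter fun v => fPV F v x = true).card
  | .inr (.inr (.inr j)), x => F.par j x = true

theorem prd_cert (hF : F.All (J q)) (hG : ∀ x, GAMMA 1 1 _ (F.apply x)) {Q : ℕ}
    (hQ : 8 * q + 4 * q * q + (F.K + 2) * (5 * q) ≤ Q) (i) : Cert Q (prd F i) := by
  rcases i with _ | _ | m | j
  · refine (emp_cert hF hG).mono (le_trans ?_ hQ)
    nlinarith
  · refine (Cert.ex (P := fun v x => fPV F v x = true ∧ fNeg F v x = true)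
      fun v => (fPV_cert hF v).and (fNeg_cert hF v)).mono (le_trans ?_ hQ)
    have : 0 ≤ 4 * q * q := Nat.zero_le _
    omega
  · refine (Cert.count (P := fun v x => fPV F v x = true) (fun v => fPV_cert hF v) m.1).mono
      (le_trans ?_ hQ)
    have h1 : m.1 * (5 * q) ≤ (F.K + 2) * (5 * q) := Nat.mul_le_mul_right _ (by omega)
    have : 0 ≤ 4 * q * q := Nat.zero_le _
    omega
  · refine (jcert (hF.par j) true).mono (le_trans ?_ hQ)
    have : 0 ≤ 4 * q * q := Nat.zero_le _
    omega

omit [DecidableEq V] in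
theorem prd_det (hG : ∀ x, GAMMA 1 1 _ (F.apply x)) {x y : V → Bool}
    (h : ∀ i, prd F i x ↔ prd F i y) :
    (F.apply x).WSat (F.param x) ↔ (F.apply y).WSat (F.param y) := by
  have key : ∀ x, (F.apply x).WSat (F.param x) ↔ ¬ prd F (.inl ()) x ∧ ¬ prd F (.inr (.inl ())) x ∧
      (univ.filter fun v => fPV F v x = true).card = (univ.filter fun j => F.par j x = true).card := by
    intro x
    have hfin := univ_finite F x
    rw [wsat11 (hG x)]
    have b1 : (∀ g, (F.apply x).isOr g → ∃ h, (F.apply x).wire g h) ↔ ¬ prd F (.inl ()) x := by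
      simp only [prd, emp]
      push Not
      constructor
      · rintro h g ⟨h1, h2⟩
        obtain ⟨⟨h', h3⟩, h4⟩ := h ⟨g, h1⟩ h2
        exact ⟨h', h3, h4⟩
      · rintro h ⟨g, h1⟩ h2
        obtain ⟨h', h3, h4⟩ := h g ⟨h1, h2⟩
        exact ⟨⟨h', h3⟩, h4⟩
    have b2 : (∀ v, (F.apply x).isVar v → ¬ (PosN (F.apply x) v ∧ NegN (F.apply x) v)) ↔
        ¬ prd F (.inr (.inl ())) x := by
      simp only [prd]
      constructor
      · rintro h ⟨v, h1, h2⟩
        simp only [fPV, Bool.and_eq_true] at h1
        exact h ⟨v, h1.1.1⟩ h1.1.2 ⟨(fPos_iff h1.1.1).1 h1.2, (fNeg_iff h1.1.1).1 h2⟩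
      · rintro h ⟨v, hd⟩ hvar ⟨h1, h2⟩
        apply h
        refine ⟨v, ?_, (fNeg_iff hd).2 h2⟩
        simp only [fPV, Bool.and_eq_true]
        exact ⟨⟨hd, hvar⟩, (fPos_iff hd).2 h1⟩
    have b3 : Nat.card {v // (F.apply x).isVar v ∧ PosN (F.apply x) v} = F.param x ↔
        (univ.filter fun v => fPV F v x = true).card =
          (univ.filter fun j => F.par j x = true).card := by
      have e1 : F.param x = (univ.filter fun j => F.par j x = true).card := by
        rw [Red.param, Nat.card_eq_fintype_card, Fintype.card_subtype]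
      have e2 : Nat.card {v // (F.apply x).isVar v ∧ PosN (F.apply x) v} =
          (univ.filter fun v => fPV F v x = true).card := by
        have e3 : Nat.card {v // (F.apply x).isVar v ∧ PosN (F.apply x) v} =
            Nat.card {v : Fin F.M // fPV F v x = true} := by
          apply Nat.card_congr
          refine ⟨fun v => ⟨v.1.1, ?_⟩, fun v => ⟨⟨v.1, ?_⟩, ?_, ?_⟩, fun _ => rfl, fun _ => rfl⟩
          · simp only [fPV, Bool.and_eq_true]
            exact ⟨⟨v.1.2, v.2.1⟩, (fPos_iff v.1.2).2 v.2.2⟩
          · have := v.2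
            simp only [fPV, Bool.and_eq_true] at this
            exact this.1.1
          · have := v.2
            simp only [fPV, Bool.and_eq_true] at this
            exact this.1.2
          · have := v.2
            simp only [fPV, Bool.and_eq_true] at this
            exact (fPos_iff this.1.1).1 this.2
        rw [e3, Nat.card_eq_fintype_card, Fintype.card_subtype]
      rw [e1, e2]
    rw [b1, b2, b3]
  have hpar : (univ.filter fun j => F.par j x = true).card =
      (univ.filter fun j => F.par j y = true).card := by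
    congr 1
    ext j
    simp only [Finset.mem_filter, Finset.mem_univ, true_and]
    exact h (.inr (.inr (.inr j)))
  have hle : (univ.filter fun j => F.par j y = true).card ≤ F.K := by
    refine (Finset.card_filter_le _ _).trans ?_
    simp
  have hcnt : (univ.filter fun v => fPV F v x = true).card =
      (univ.filter fun j => F.par j y = true).card ↔
      (univ.filter fun v => fPV F v y = true).card =
      (univ.filter fun j => F.par j y = true).card := by
    generalize (univ.filter fun j => F.par j y = true).card = κ at hle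
    have h1 := h (.inr (.inr (.inl ⟨κ, by omega⟩)))
    have h2 := h (.inr (.inr (.inl ⟨κ + 1, by omega⟩)))
    simp only [prd] at h1 h2
    omega
  rw [key x, key y, hpar, hcnt, h (.inl ()), h (.inr (.inl ()))]

end lo

/-- an OR of ANDs is not determined by few predicates with small certificates -/
theorem or_and {ι : Type} [Fintype ι] {A G Q : ℕ}
    {P : ι → (Fin A × Fin G → Bool) → Prop}
    (h : ∀ i, Cert Q (P i)) (hA : Fintype.card ι * Q < A) (hG : Fintype.card ι * Q < G)
    (hdet : ∀ x y, (∀ i, P i x ↔ P i y) →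
      ((∃ a, ∀ g, x (a, g) = false) ↔ ∃ a, ∀ g, y (a, g) = false)) : False := by
  classical
  obtain ⟨D, x, hD, hc⟩ := fix_all (univ : Finset ι) (P := P) (q := Q) fun i => Or.inl (h i)
  rw [Finset.card_univ] at hD
  obtain ⟨a, ha⟩ : ∃ a : Fin A, ∀ p ∈ D, p.1 ≠ a := by
    by_contra hcon
    push Not at hcon
    have h1 : (univ : Finset (Fin A)) ⊆ D.image Prod.fst := by
      intro a _
      obtain ⟨p, hp, hpa⟩ := hcon a
      exact Finset.mem_image.2 ⟨p, hp, hpa⟩
    have h2 := (Finset.card_le_card h1).trans Finset.card_image_le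
    rw [Finset.card_univ, Fintype.card_fin] at h2
    omega
  obtain ⟨g, hg⟩ : ∃ g : Fin G, ∀ p ∈ D, p.2 ≠ g := by
    by_contra hcon
    push Not at hcon
    have h1 : (univ : Finset (Fin G)) ⊆ D.image Prod.snd := by
      intro a _
      obtain ⟨p, hp, hpa⟩ := hcon a
      exact Finset.mem_image.2 ⟨p, hp, hpa⟩
    have h2 := (Finset.card_le_card h1).trans Finset.card_image_le
    rw [Finset.card_univ, Fintype.card_fin] at h2
    omega
  let y : Fin A × Fin G → Bool := fun p => if p.1 = a then false else x p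
  let z : Fin A × Fin G → Bool := fun p => if p.2 = g then true else x p
  have hy : Ag D x y := by
    intro p hp
    simp only [y, if_neg (ha p hp)]
  have hz : Ag D x z := by
    intro p hp
    simp only [z, if_neg (hg p hp)]
  have h1 := hdet y z fun i => hc i (Finset.mem_univ _) y z hy hz
  obtain ⟨a', ha'⟩ := h1.1 ⟨a, fun g => by simp [y]⟩
  have := ha' g
  simp [z] at this

end Pool.Agent.WSatQ97
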