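import Pool.Agent.WSatQ97.SrcLo
import Pool.Agent.WSatQ97.Lo11
import Pool.Agent.WSatQ97.FinalHi

/-! The first link. -/

namespace Pool.Agent.WSatQ97

open Finset Pool.Agent.WSatChain Pool.Agent.WSatAC0 Pool.Agent.ParityAC Pool.Agent.WSatCount

theorem core_lo {k A G r E n : ℕ} (hA : 1 ≤ A) (hG1 : 1 ≤ G) (hr : 1 ≤ r)
    {e : UL k A G r ≃ Fin n} (he : Cns e) (F : Fin E → Red (Probe n)) (T : (Fin E → Prop) → Prop)
    {q m e1 Q : ℕ} (hF : ∀ i, (F i).All (Reads q))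
    (hn : (∑ i, Fintype.card (Ix (F i))) * (2 * q) ^ m < r ^ m)
    (hG : ∀ i w, GAMMA 1 1 _ ((F i).apply (ans e (srcL k A G r) w)))
    (hred : ∀ w, (mp e (sw (srcL k A G r) w)).WSat (k + 1) ↔
      T fun i => ((F i).apply (ans e (srcL k A G r) w)).WSat
        ((F i).param (ans e (srcL k A G r) w)))
    (hK : ∀ i, (F i).K ≤ e1)
    (hQ : 8 * 2 ^ m + 4 * 2 ^ m * 2 ^ m + (e1 + 2) * (5 * 2 ^ m) ≤ Q)
    (hA' : E * (2 * e1 + 4) * Q < A) (hG' : E * (2 * e1 + 4) * Q < G) : False := by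
  classical
  have hneC : Nonempty (Fin A × Fin G) := ⟨(⟨0, hA⟩, ⟨0, hG1⟩)⟩
  obtain ⟨σ, hσ1⟩ := embed hr he srcL_nob F hF hn
  let FV : Fin E → Red (Fin A × Fin G) := fun i =>
    (F i).comp (fun y => ans e (srcL k A G r) (plant σ y))
  have hFV : ∀ i, (FV i).All (J (2 ^ m)) := by
    intro i
    have h2 := hσ1 i
    exact ⟨fun p => (h2.dom p).toJ, fun p => (h2.isVar p).toJ, fun p => (h2.isAnd p).toJ,
      fun p => (h2.isOr p).toJ, fun p => (h2.isNot p).toJ, fun p => (h2.isOut p).toJ,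
      fun p q => (h2.wire p q).toJ, fun j => (h2.par j).toJ⟩
  have hGV : ∀ i y, GAMMA 1 1 _ ((FV i).apply y) := fun i y => hG i _
  have hcard : Fintype.card ((i : Fin E) × (Unit ⊕ (Unit ⊕ (Fin ((FV i).K + 2) ⊕ Fin (FV i).K)))) ≤
      E * (2 * e1 + 4) := by
    rw [Fintype.card_sigma]
    calc ∑ i : Fin E, Fintype.card (Unit ⊕ (Unit ⊕ (Fin ((FV i).K + 2) ⊕ Fin (FV i).K)))
        ≤ ∑ _i : Fin E, (2 * e1 + 4) := by
          apply Finset.sum_le_sum
          intro i _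
          simp only [Fintype.card_sum, Fintype.card_unit, Fintype.card_fin]
          have : (FV i).K ≤ e1 := hK i
          omega
      _ = _ := by simp
  refine or_and (ι := (i : Fin E) × (Unit ⊕ (Unit ⊕ (Fin ((FV i).K + 2) ⊕ Fin (FV i).K))))
    (Q := Q) (P := fun p y => prd (FV p.1) p.2 y) ?_
    (lt_of_le_of_lt (Nat.mul_le_mul_right _ hcard) hA')
    (lt_of_le_of_lt (Nat.mul_le_mul_right _ hcard) hG') ?_
  · rintro ⟨i, j⟩
    apply prd_cert (hFV i) (hGV i)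
    refine le_trans ?_ hQ
    apply Nat.add_le_add_left
    apply Nat.mul_le_mul_right
    have : (FV i).K ≤ e1 := hK i
    omega
  · intro x y hxy
    have key : ∀ z : Fin A × Fin G → Bool, (∃ a, ∀ g, z (a, g) = false) ↔
        T fun i => ((FV i).apply z).WSat ((FV i).param z) := by
      intro z
      have h1 := hred (plant σ z)
      have h2 : (mp e (sw (srcL k A G r) (plant σ z))).WSat (k + 1) ↔
          (sw (srcL k A G r) (plant σ z)).WSat (k + 1) :=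
        ⟨iso_wsat (mp_iso e _).symm, iso_wsat (mp_iso e _)⟩
      rw [h2, srcL_wsat hG1 hr] at h1
      refine Iff.trans ?_ h1
      apply exists_congr
      intro a
      constructor
      · intro h g i
        simp [plant, h g]
      · intro h g
        have := h g (σ (a, g))
        simpa [plant] using this
    have h3 : (fun i => ((FV i).apply x).WSat ((FV i).param x)) =
        fun i => ((FV i).apply y).WSat ((FV i).param y) := by
      funext i
      exact propext (prd_det (hGV i) fun j => hxy ⟨i, j⟩)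
    rw [key x, key y, h3]

/-- **The first link.** -/
theorem not_slice_lo (c0 δ : ℝ) (hδ : 0 < δ) (k : ℕ) :
    ¬ SliceTT (fun n => c0 * ((n : ℝ) + 1) ^ (1 - δ)) (k + 1) (Sparse (GAMMA 1 2))
      (GAMMA 1 1) := by
  rintro ⟨e1, F, T, hF, hred⟩
  obtain ⟨a, ha⟩ : ∃ a : ℕ, 4 ≤ min δ (1 / 2) * ((a : ℝ) + 2) := by
    have hm : 0 < min δ (1 / 2) := lt_min hδ (by norm_num)
    obtain ⟨a, ha⟩ := exists_nat_ge (4 / min δ (1 / 2))
    refine ⟨a, ?_⟩
    rw [div_le_iff₀ hm] at ha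
    nlinarith
  obtain ⟨C, hC⟩ := exists_nat_ge c0
  obtain ⟨u, hu⟩ : ∃ u, u = (a + 2) * e1 + 1 := ⟨_, rfl⟩
  obtain ⟨m, hm⟩ : ∃ m, m = 2 * u + 3 := ⟨_, rfl⟩
  obtain ⟨Q, hQ⟩ : ∃ Q, Q = 8 * 2 ^ m + 4 * 2 ^ m * 2 ^ m + (e1 + 2) * (5 * 2 ^ m) := ⟨_, rfl⟩
  obtain ⟨A, hA⟩ : ∃ A, A = e1 * (2 * e1 + 4) * Q + 1 := ⟨_, rfl⟩
  obtain ⟨Y, hY⟩ : ∃ Y, Y = 4 * (A * A) + (k + A + 16) + 2 * C + e1 := ⟨_, rfl⟩
  obtain ⟨r, hr⟩ : ∃ r, r = Y ^ a := ⟨_, rfl⟩
  have ha6 : 6 ≤ a := by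
    have h3 : (4 : ℝ) ≤ 1 / 2 * (a + 2) :=
      ha.trans (mul_le_mul_of_nonneg_right (min_le_right _ _) (by positivity))
    have h4 : (6 : ℝ) ≤ a := by linarith
    exact_mod_cast h4
  have hY16 : 16 ≤ Y := by omega
  have hA1 : 1 ≤ A := by omega
  have hr1 : 1 ≤ r := by
    rw [hr]
    exact Nat.one_le_pow _ _ (by omega)
  have hYp : ∀ j, 1 ≤ Y ^ j := fun j => Nat.one_le_pow _ _ (by omega)
  obtain ⟨n, e, he⟩ : ∃ (n : ℕ) (e : UL k A A r ≃ Fin n), Cns e :=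
    ⟨_, num _ _, num_cns⟩
  have hn : n = Nat.card (UL k A A r) := by
    rw [Nat.card_congr e, Nat.card_fin]
  have hnle : n + 1 ≤ Y ^ (a + 2) := by
    rw [hn, card_UL]
    have h1 : 4 * (A * A) + (k + A + 4) ≤ Y := by omega
    calc k + A + (3 + 2 * (A * A * r)) + A * A * r * 2 + 1
        = (k + A + 4) * 1 + 4 * (A * A) * r := by ring
      _ ≤ (k + A + 4) * r + 4 * (A * A) * r :=
          Nat.add_le_add_right (Nat.mul_le_mul_left _ hr1) _
      _ = (4 * (A * A) + (k + A + 4)) * r := by ring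
      _ ≤ Y * r := Nat.mul_le_mul_right _ h1
      _ = Y ^ (a + 1) := by rw [hr, ← pow_succ']
      _ ≤ Y ^ (a + 2) := Nat.pow_le_pow_right (by omega) (by omega)
  have hAA : ∀ w, Sparse (GAMMA 1 2) _ (mp e (sw (srcL k A A r) w)) := by
    intro w
    apply mp_sparse (isoInv_gamma 1 2)
    refine ⟨sw_gamma (srcL_ok hA1 hr1) w (by norm_num) srcL_level, ?_⟩
    rw [sw_wires]
    exact wires_L
  have hred' := fun w => hred n _ (hAA w)
  have hFn := hF n
  have hEY : e1 ≤ Y := by omega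
  have hM : ∀ i, (F n i).M ≤ Y ^ u := by
    intro i
    refine (hFn i).2.1.trans ?_
    calc e1 * (n + 1) ^ e1 ≤ Y * (Y ^ (a + 2)) ^ e1 :=
          Nat.mul_le_mul hEY (Nat.pow_le_pow_left hnle _)
      _ = Y ^ u := by rw [← pow_mul, ← pow_succ', hu]
  have hK : ∀ i, (F n i).K ≤ e1 := fun i => (hFn i).2.2
  have hI := ix_le (F n) le_rfl hM hK rfl hEY (by omega) (by omega)
  have hq := floor_le (Y := Y) ha hnle hC (by omega) (by omega)
  refine core_lo hA1 hA1 hr1 (he := he) (F := F n) (T := T n) (m := m)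
    (q := ⌊c0 * ((n : ℝ) + 1) ^ (1 - δ)⌋₊) (e1 := e1) (Q := Q)
    (fun i => ⟨fun p => ((hFn i).1.dom p).floor, fun p => ((hFn i).1.isVar p).floor,
      fun p => ((hFn i).1.isAnd p).floor, fun p => ((hFn i).1.isOr p).floor,
      fun p => ((hFn i).1.isNot p).floor, fun p => ((hFn i).1.isOut p).floor,
      fun p q => ((hFn i).1.wire p q).floor, fun j => ((hFn i).1.par j).floor⟩)
    ?_ (fun i w => (hred' w).1 i) (fun w => (hred' w).2) hK hQ.ge (by omega) (by omega)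
  calc (∑ i, Fintype.card (Ix (F n i))) * (2 * ⌊c0 * ((n : ℝ) + 1) ^ (1 - δ)⌋₊) ^ m
      ≤ Y ^ (2 * u + 2) * (Y ^ (a - 1)) ^ m := Nat.mul_le_mul hI (Nat.pow_le_pow_left hq _)
    _ = Y ^ (2 * u + 2 + (a - 1) * m) := by rw [← pow_mul, ← pow_add]
    _ < Y ^ (a * m) := by
        apply Nat.pow_lt_pow_right (by omega)
        have h1 : a * m = (a - 1) * m + m := by
          obtain ⟨a', rfl⟩ : ∃ a', a = a' + 1 := ⟨a - 1, by omega⟩
          simp only [Nat.add_sub_cancel]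
          ring
        omega
    _ = r ^ m := by rw [hr, ← pow_mul]

end Pool.Agent.WSatQ97
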