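import Pool.Agent.WSatQ97.Def
import Pool.Agent.WSatAC0.Fwd
import Pool.Agent.WSatAC0.Comp

/-! The reductions along the chain, and many-one reductions as truth-table reductions. -/

namespace Pool.Agent.WSatQ97

open Pool.Agent.WSatChain Pool.Agent.WSatAC0 Pool.Agent.ParityAC

theorem reads_const {V : Type} (b : Bool) : Reads (V := V) 1 (fun _ => b) :=
  ⟨.leaf b, by simp [DT.depth], fun _ => rfl⟩

theorem reads_one {V : Type} (v : V) : Reads 1 (fun x => x v) := by
  refine ⟨.node v (.leaf false) (.leaf true), by simp [DT.depth], ?_⟩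
  intro x
  simp only [DT.eval]
  cases x v <;> simp

/-- the identity -/
noncomputable def idP (k n : ℕ) : Red (Probe n) := (idRed k n).comp fun x b => x (Probe.bit b)

theorem idP_all (k n : ℕ) : (idP k n).All (Reads 1) where
  dom _ := reads_const true
  isVar p := reads_one (Probe.bit (.isVar p))
  isAnd p := reads_one (Probe.bit (.isAnd p))
  isOr p := reads_one (Probe.bit (.isOr p))
  isNot p := reads_one (Probe.bit (.isNot p))
  isOut p := reads_one (Probe.bit (.isOut p))
  wire p q := reads_one (Probe.bit (.wire p q))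
  par _ := reads_const true

theorem loc_of_sub {A B : CClass} (h : ∀ U C, A U C → B U C) (hB : IsoInv B) (k : ℕ) :
    SliceLoc (fun _ => 1) k A B := by
  refine ⟨k + 1, fun n => idP k n, ?_, ?_⟩
  · intro n
    refine ⟨idP_all _ _, ?_, Nat.le_succ k⟩
    show n ≤ (k + 1) * (n + 1) ^ (k + 1)
    calc n ≤ 1 * (n + 1) := by omega
      _ ≤ (k + 1) * (n + 1) ^ (k + 1) := by
        apply Nat.mul_le_mul (by omega)
        exact Nat.le_self_pow (by omega) _
  · intro n C hC
    refine ⟨hB _ _ _ _ _ (idRed_iso k n C) (h _ C hC), ?_⟩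
    have h1 : (idP k n).param (answers C) = k := idRed_param k n (bits C)
    rw [h1]
    exact ⟨iso_wsat (idRed_iso k n C), iso_wsat (idRed_iso k n C).symm⟩

theorem tt_sub_left {q : ℕ → ℝ} {k : ℕ} {A A' B : CClass} (h : ∀ U C, A' U C → A U C)
    (hr : SliceTT q k A B) : SliceTT q k A' B := by
  obtain ⟨e, F, T, h1, h2⟩ := hr
  exact ⟨e, F, T, h1, fun n C hC => h2 n C (h _ C hC)⟩

/-- many-one reductions are truth-table reductions -/
theorem tt_of_loc {q : ℕ → ℝ} {k : ℕ} {A B : CClass} (h : SliceLoc q k A B) : SliceTT q k A B := by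
  obtain ⟨e, F, h1, h2⟩ := h
  refine ⟨e + 1, fun n _ => F n, fun _ P => P 0, ?_, ?_⟩
  · intro n _
    obtain ⟨a, b, c⟩ := h1 n
    refine ⟨a, b.trans ?_, c.trans (Nat.le_succ e)⟩
    exact Nat.mul_le_mul (by omega) (Nat.pow_le_pow_right (by omega) (by omega))
  · intro n C hC
    exact ⟨fun _ => (h2 n C hC).1, (h2 n C hC).2⟩

end Pool.Agent.WSatQ97
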