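import Pool.Agent.WSatQ97.Swap

/-! All output bits become small trees of the hidden bits. -/

namespace Pool.Agent.WSatQ97

open Finset Pool.Agent.WSatChain Pool.Agent.WSatAC0 Pool.Agent.ParityAC

theorem Dm.mono {V : Type} {m m' : ℕ} (h : m ≤ m') {f : (V → Bool) → Bool} (hf : Dm m f) :
    Dm m' f := by
  obtain ⟨t, h1, h2⟩ := hf
  exact ⟨t, h1.trans h, h2⟩

theorem Reads.floor {V : Type} {x : ℝ} {f : (V → Bool) → Bool} (h : Reads x f) :
    Reads ((⌊x⌋₊ : ℕ) : ℝ) f := by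
  obtain ⟨t, h1, h2⟩ := h
  refine ⟨t, ?_, h2⟩
  exact_mod_cast Nat.le_floor h1

/-- **positions at which all output bits are small trees** -/
theorem embed {U0 C : Type} [Fintype U0] [Fintype C] [DecidableEq C] {r E n : ℕ} [Nonempty C]
    (hr : 1 ≤ r) {e : (U0 ⊕ ((C × Fin r) × Bool)) ≃ Fin n} (he : Cns e)
    {C0 : Circ (U0 ⊕ ((C × Fin r) × Bool))} (hC : NoB C0) (F : Fin E → Red (Probe n)) {q m : ℕ}
    (hF : ∀ i, (F i).All (Reads q))
    (hn : (∑ i, Fintype.card (Ix (F i))) * (2 * q) ^ m < r ^ m) :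
    ∃ σ : C → Fin r, ∀ i, ((F i).comp (fun y => ans e C0 (plant σ y))).All (Dm m) := by
  have hne : Nonempty (C × Fin r) := by
    obtain ⟨c⟩ := ‹Nonempty C›
    exact ⟨(c, ⟨0, hr⟩)⟩
  have h1 : ∀ p : (i : Fin E) × Ix (F i), Dm q (fun w => outF (F p.1) p.2 (ans e C0 w)) :=
    fun p => reads_push he hC (outF_of (hF p.1) p.2)
  choose T hT1 hT2 using h1
  obtain ⟨σ, hσ⟩ := exists_pos T hT1 (i := m) (by rwa [Fintype.card_sigma]) hr
  refine ⟨σ, fun i => of_outF fun j => ?_⟩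
  refine ⟨res σ (T ⟨i, j⟩) fun _ => none, (hσ ⟨i, j⟩).le, ?_⟩
  intro y
  rw [res_eval σ y _ _ (fun c b h => by simp at h), hT2]
  rcases j with ⟨j, k⟩ | ⟨j, j'⟩ | j
  · show outF (F i) (Sum.inl (j, k)) (ans e C0 (plant σ y)) = _
    simp only [outF]
    split_ifs <;> rfl
  · rfl
  · rfl

end Pool.Agent.WSatQ97
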