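import Pool.Agent.ParityAC.Parity

/-! Parity is not a Boolean combination of few functions of small alternation depth. -/

namespace Pool.Agent.WSatQ97

open Finset Pool.Agent.ParityAC

/-- `f` is determined by the functions `g i` -/
def Det {V ι : Type} (g : ι → (V → Bool) → Bool) (f : (V → Bool) → Bool) : Prop :=
  ∀ x y, (∀ i, g i x = g i y) → f x = f y

/-- the number of variables needed -/
def bE (E s s' : ℕ) : ℕ → ℕ → ℕ
  | 0, q => (16 * q + 1) * (E * (s' - 1) + 1)
  | r + 1, q => (16 * q + 1) * bE E s s' r (s - 1)

theorem flip_comb {V : Type} [DecidableEq V] {f : (V → Bool) → Bool} (hfl : Flip f) (ρ : Rst V) :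
    Flip (fun y : {v // ρ v = none} → Bool => f (comb ρ y)) := by
  intro y v
  have h4 : comb ρ (Function.update y v (!y v)) =
      Function.update (comb ρ y) v.1 (!(comb ρ y v.1)) := by
    funext w
    by_cases hw : w = v.1
    · subst hw
      simp [comb, v.2]
    · rw [Function.update_of_ne hw]
      unfold comb
      split
      · rename_i h5
        rw [Function.update_of_ne]
        intro h6
        exact hw (congrArg Subtype.val h6)
      · rfl
  show f (comb ρ (Function.update y v (!y v))) = !f (comb ρ y)
  rw [h4, hfl]

theorem no_flipE {E : ℕ} (S s s' : ℕ) (hs : 1 ≤ s) (hs' : 1 ≤ s') (hE : E < 2 ^ s') :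
    ∀ (r : ℕ) (V : Type) (_ : Fintype V) (_ : DecidableEq V) (q : ℕ) (β : Bool)
    (g : Fin E → (V → Bool) → Bool) (f : (V → Bool) → Bool),
    (∀ i, InAlt S q (r + 1) β (g i)) → Det g f → Flip f → E * S ^ r < 2 ^ s →
    bE E s s' r q ≤ Fintype.card V → False := by
  intro r
  induction r with
  | zero =>
    intro V _ _ q β g f hg hd hfl _ hb
    obtain ⟨ρ, hρ1, hρ2⟩ := alt_step S q s' (E * (s' - 1) + 1) hs' hb 0 (Fin E) inferInstance β g
      hg (by simpa using hE)
    choose t ht1 ht2 using hρ2
    have hcard : Fintype.card {v // ρ v = none} = E * (s' - 1) + 1 := by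
      rw [Fintype.card_subtype]
      rw [mem_RS] at hρ1
      exact hρ1
    let x : {v // ρ v = none} → Bool := fun _ => true
    let P : Finset {v // ρ v = none} := univ.biUnion fun i : Fin E => ((t i).path x).toFinset
    have hP : P.card ≤ E * (s' - 1) := by
      refine Finset.card_biUnion_le.trans ?_
      calc ∑ i : Fin E, ((t i).path x).toFinset.card ≤ ∑ _i : Fin E, (s' - 1) :=
            Finset.sum_le_sum fun i _ => (List.toFinset_card_le _).trans
              ((DT.path_length _ _).trans (ht1 i))
        _ = _ := by simp
    obtain ⟨v, hv⟩ : ∃ v, v ∉ P := by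
      by_contra hcon
      push Not at hcon
      have h1 : (univ : Finset {v // ρ v = none}) ⊆ P := fun v _ => hcon v
      have h2 := Finset.card_le_card h1
      rw [Finset.card_univ, hcard] at h2
      omega
    have h1 := flip_comb hfl ρ x v
    have h2 : f (comb ρ (Function.update x v (!x v))) = f (comb ρ x) := by
      apply hd
      intro i
      refine (ht2 i _).symm.trans (Eq.trans ?_ (ht2 i x))
      apply DT.eval_of_path
      intro w hw
      rw [Function.update_of_ne]
      rintro rfl
      exact hv (Finset.mem_biUnion.2 ⟨i, Finset.mem_univ _, List.mem_toFinset.2 hw⟩)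
    change f (comb ρ (Function.update x v (!x v))) = !f (comb ρ x) at h1
    rw [h2] at h1
    cases h3 : f (comb ρ x) <;> rw [h3] at h1 <;> simp at h1
  | succ r ih =>
    intro V _ _ q β g f hg hd hfl hS hb
    obtain ⟨ρ, hρ1, hρ2⟩ := alt_step S q s (bE E s s' r (s - 1)) hs hb (r + 1) (Fin E)
      inferInstance β g hg (by rw [Fintype.card_fin]; exact hS)
    refine ih {v // ρ v = none} inferInstance inferInstance (s - 1) β
      (fun i y => g i (comb ρ y)) (fun y => f (comb ρ y)) hρ2 ?_ (flip_comb hfl ρ) ?_ ?_
    · intro x y hxy
      exact hd _ _ hxy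
    · rcases Nat.eq_zero_or_pos S with rfl | hSp
      · rcases Nat.eq_zero_or_pos r with rfl | hr
        · have h1 : 1 ≤ s := hs
          rw [pow_zero, mul_one]
          by_cases hE0 : E = 0
          · subst hE0
            exact Nat.pos_of_ne_zero (by positivity)
          · -- an empty family of gates
            exfalso
            have hconst : ∀ i : Fin E, ∀ x y, g i x = g i y := by
              intro i x y
              obtain ⟨u, _, hu⟩ := hg i
              rw [hu, hu]
              congr 1
              funext j
              exact j.elim0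
            have hne : Nonempty V := by
              rw [← Fintype.card_pos_iff]
              refine lt_of_lt_of_le ?_ hb
              simp only [bE]
              positivity
            obtain ⟨v⟩ := hne
            have h2 := hfl (fun _ => true) v
            rw [hd _ (fun _ => true) fun i => hconst i _ _] at h2
            cases h3 : f (fun _ => true) <;> rw [h3] at h2 <;> simp at h2
        · rw [zero_pow (by omega), Nat.mul_zero]
          exact Nat.pos_of_ne_zero (by positivity)
      · refine lt_of_le_of_lt (Nat.mul_le_mul_left _ ?_) hS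
        exact Nat.pow_le_pow_right hSp (by omega)
    · rw [Fintype.card_subtype]
      rw [mem_RS] at hρ1
      exact le_of_eq hρ1.symm

/-- an explicit bound -/
theorem bE_le (E s s' : ℕ) (hs : 1 ≤ s) : ∀ r q, bE E s s' r q ≤
    (16 * q + 1) * (E * s' + 1) * (16 * s) ^ r := by
  intro r
  induction r with
  | zero =>
    intro q
    simp only [bE, pow_zero, mul_one]
    apply Nat.mul_le_mul_left
    have : E * (s' - 1) ≤ E * s' := Nat.mul_le_mul_left _ (Nat.sub_le _ _)
    omega
  | succ r ih =>
    intro q
    simp only [bE]
    have h1 := ih (s - 1)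
    have h2 : 16 * (s - 1) + 1 ≤ 16 * s := by omega
    calc (16 * q + 1) * bE E s s' r (s - 1)
        ≤ (16 * q + 1) * ((16 * (s - 1) + 1) * (E * s' + 1) * (16 * s) ^ r) :=
          Nat.mul_le_mul_left _ h1
      _ ≤ (16 * q + 1) * ((16 * s) * (E * s' + 1) * (16 * s) ^ r) := by gcongr
      _ = _ := by ring

end Pool.Agent.WSatQ97
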