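import Pool.Agent.WSatQ97.SemHi
import Pool.Agent.WSatQ97.NoFlip
import Pool.Agent.WSatQ97.Embed
import Pool.Agent.WSatAC0.Core

/-! The contradiction for the higher links, for suitable numbers. -/

namespace Pool.Agent.WSatQ97

open Finset Pool.Agent.WSatChain Pool.Agent.WSatAC0 Pool.Agent.ParityAC Pool.Agent.WSatCount

theorem J.one {V W : Type} [DecidableEq V] [DecidableEq W] {q : ℕ} {f : (W → Bool) → Bool}
    (h : J q f) (π : W → V)
    {Y : (V → Bool) → W → Bool} (hY : ∀ c z z', z (π c) = z' (π c) → Y z c = Y z' c) :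
    J q (fun z => f (Y z)) := by
  obtain ⟨R, h1, h2⟩ := h
  refine ⟨R.image π, Finset.card_image_le.trans h1, ?_⟩
  intro x y hxy
  apply h2
  intro v hv
  exact hY v x y (hxy _ (Finset.mem_image_of_mem π hv))

section core

variable {k t r E n : ℕ} {B : Type} [Fintype B] [DecidableEq B]

/-- the value of the hidden bit with a given name -/
noncomputable def Yz (z : VV B (t + 1) → Bool) (c : Cx B (t + 1)) : Bool :=
  decide (bz z (c.2 :: pth c.1.1) ≠ hd 0 c.1.1 c.2)

/-- the hidden bit -/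
def πz (c : Cx B (t + 1)) : VV B (t + 1) :=
  ⟨c.2 :: pth c.1.1, by simp [pth, c.1.2.2]⟩

omit [DecidableEq B] in
theorem hid_plant (σ : Cx B (t + 1) → Fin r) (z : VV B (t + 1) → Bool) :
    HidH (plant σ (Yz z)) (bz z) := by
  intro L j
  constructor
  · rintro ⟨i, hi⟩
    simp only [plant, Bool.and_eq_true, decide_eq_true_eq, Yz] at hi
    exact hi.2
  · intro h
    refine ⟨σ (L, j), ?_⟩
    simp only [plant, Bool.and_eq_true, decide_eq_true_eq, Yz, true_and]
    exact h

theorem core_hi (hr : 1 ≤ r) [Nonempty B] {e : UH k (t + 1) r B ≃ Fin n} (he : Cns e)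
    (F : Fin E → Red (Probe n)) (T : (Fin E → Prop) → Prop) {q m d S S' : ℕ}
    (hF : ∀ i, (F i).All (Reads q))
    (hn : (∑ i, Fintype.card (Ix (F i))) * (2 * q) ^ m < r ^ m)
    (hG : ∀ i w, GAMMA (t + 1) d _ ((F i).apply (ans e (srcH k (t + 1) r B) w)))
    (hred : ∀ w, (mp e (sw (srcH k (t + 1) r B) w)).WSat (k + 1) ↔
      T fun i => ((F i).apply (ans e (srcH k (t + 1) r B) w)).WSat
        ((F i).param (ans e (srcH k (t + 1) r B) w)))
    (hS : 1 ≤ S) (hM : ∀ i, (F i).M ≤ S) (hS' : ∀ i, S + (F i).K ≤ S')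
    (hS'' : ∀ i, ((F i).M + 1) ^ ((F i).K + 1) ≤ S')
    {σ' s' : ℕ} (hσ : 1 ≤ σ') (hs' : 1 ≤ s') (hE : E < 2 ^ s')
    (hSσ : E * S' ^ (t + 1) < 2 ^ σ')
    (hb : bE E σ' s' (t + 1) (cL d (2 ^ m) + (t + 1) * (6 * 2 ^ m) + 3 * 2 ^ m + 2 * 2 ^ m) ≤
      Fintype.card B ^ (t + 2)) : False := by
  classical
  have hneC : Nonempty (Cx B (t + 1)) := by
    obtain ⟨b⟩ := ‹Nonempty B›
    have key : ∀ l, ∃ L : Hist B, okL L ∧ L.length = l := by
      intro l
      induction l with
      | zero => exact ⟨[], trivial, rfl⟩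
      | succ l ih =>
        obtain ⟨L, h1, h2⟩ := ih
        refine ⟨(b, fun x => if x = b then hd 0 L b + 1 else 0) :: L, ⟨h1, Or.inr ?_⟩, by simp [h2]⟩
        simp
    obtain ⟨L, h1, h2⟩ := key (t + 1)
    exact ⟨(⟨L, h1, h2⟩, b)⟩
  obtain ⟨σ, hσ1⟩ := embed hr he srcH_nob F hF hn
  let FV : Fin E → Red (VV B (t + 1)) := fun i =>
    (F i).comp (fun z => ans e (srcH k (t + 1) r B) (plant σ (Yz z)))
  have hFV : ∀ i, (FV i).All (J (2 ^ m)) := by
    intro i
    have h1 : ((F i).comp (fun y => ans e (srcH k (t + 1) r B) (plant σ y))).All (J (2 ^ m)) := by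
      have h2 := hσ1 i
      exact ⟨fun p => (h2.dom p).toJ, fun p => (h2.isVar p).toJ, fun p => (h2.isAnd p).toJ,
        fun p => (h2.isOr p).toJ, fun p => (h2.isNot p).toJ, fun p => (h2.isOut p).toJ,
        fun p q => (h2.wire p q).toJ, fun j => (h2.par j).toJ⟩
    have h2 : ∀ f : (Cx B (t + 1) → Bool) → Bool, J (2 ^ m) f →
        J (2 ^ m) (fun z : VV B (t + 1) → Bool => f (Yz z)) := by
      intro f hf
      refine J.one hf πz ?_
      intro c z z' h
      have hlen : (c.2 :: pth c.1.1).length = t + 1 + 1 := by simp [pth, c.1.2.2]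
      simp only [Yz, bz_some _ hlen]
      have h3 : z ⟨c.2 :: pth c.1.1, hlen⟩ = z' ⟨c.2 :: pth c.1.1, hlen⟩ := h
      rw [h3]
    exact Red.comp_all (F := (F i).comp (fun y => ans e (srcH k (t + 1) r B) (plant σ y)))
      (τ := Yz) h2 h1
  have hGV : ∀ i z, GAMMA (t + 1) d _ ((FV i).apply z) := fun i z => hG i _
  have halt : ∀ i, InAlt S' (cL d (2 ^ m) + (t + 1) * (6 * 2 ^ m) + 3 * 2 ^ m + 2 * 2 ^ m)
      (t + 1 + 1) false (fun z => decide (((FV i).apply z).WSat ((FV i).param z))) := fun i =>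
    jtop (hFV i) (hGV i) hS (hM i) (hS' i) (hS'' i)
  refine no_flipE S' σ' s' hσ hs' hE (t + 1) (VV B (t + 1)) inferInstance _ _ false _
    (fun z => decide (bp (bz z) (t + 1 + 1) [] = 0)) halt ?_ flip_parity hSσ ?_
  · intro x y hxy
    have key : ∀ z : VV B (t + 1) → Bool, bp (bz z) (t + 1 + 1) [] = 0 ↔
        T fun i => ((FV i).apply z).WSat ((FV i).param z) := by
      intro z
      have h1 := hred (plant σ (Yz z))
      have h2 : (mp e (sw (srcH k (t + 1) r B) (plant σ (Yz z)))).WSat (k + 1) ↔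
          (sw (srcH k (t + 1) r B) (plant σ (Yz z))).WSat (k + 1) :=
        ⟨iso_wsat (mp_iso e _).symm, iso_wsat (mp_iso e _)⟩
      exact (srcH_wsat (by omega) (hid_plant σ z)).symm.trans (h2.symm.trans h1)
    have h3 : (fun i => ((FV i).apply x).WSat ((FV i).param x)) =
        fun i => ((FV i).apply y).WSat ((FV i).param y) := by
      funext i
      have := hxy i
      simp only [decide_eq_decide] at this
      exact propext this
    show decide _ = decide _
    rw [decide_eq_decide, key x, key y, h3]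
  · rw [card_vector]
    exact hb

end core

end Pool.Agent.WSatQ97
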