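import Pool.Agent.ParityAC.Switch
import Pool.Agent.WSatAC0.Query

/-! Hiding bits at random positions: a tree with few queries finds few of them. -/

namespace Pool.Agent.WSatQ97

open Finset Pool.Agent.ParityAC Pool.Agent.WSatAC0

variable {C : Type} [Fintype C] [DecidableEq C] {r : ℕ}

/-- the tree seen by the hidden bits -/
def res (σ : C → Fin r) : DT (C × Fin r) → (C → Option Bool) → DT C
  | .leaf b, _ => .leaf b
  | .node v t0 t1, κ => if σ v.1 = v.2 then
      (match κ v.1 with
        | some true => res σ t1 κ
        | some false => res σ t0 κ
        | none => .node v.1 (res σ t0 (Function.update κ v.1 (some false)))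
            (res σ t1 (Function.update κ v.1 (some true))))
      else res σ t0 κ

/-- the big input: the hidden bit `y c` at the position `σ c` -/
def plant (σ : C → Fin r) (y : C → Bool) : C × Fin r → Bool := fun v => decide (σ v.1 = v.2) && y v.1

omit [Fintype C] in
theorem res_eval (σ : C → Fin r) (y : C → Bool) : ∀ (t : DT (C × Fin r)) (κ : C → Option Bool),
    (∀ c b, κ c = some b → y c = b) → (res σ t κ).eval y = t.eval (plant σ y) := by
  intro t
  induction t with
  | leaf b => intro κ _; rfl
  | node v t0 t1 h0 h1 =>
    intro κ hκ
    unfold res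
    by_cases hv : σ v.1 = v.2
    · rw [if_pos hv]
      have hp : plant σ y v = y v.1 := by simp [plant, hv]
      simp only [DT.eval, hp]
      rcases hk : κ v.1 with _ | b
      · simp only [DT.eval]
        by_cases hy : y v.1 = true
        · rw [if_pos hy, if_pos hy]
          apply h1
          intro c b hc
          by_cases hcv : c = v.1
          · subst hcv
            rw [Function.update_self] at hc
            simp only [Option.some.injEq] at hc
            rw [← hc]
            exact hy
          · rw [Function.update_of_ne hcv] at hc
            exact hκ c b hc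
        · rw [if_neg hy, if_neg hy]
          apply h0
          intro c b hc
          by_cases hcv : c = v.1
          · subst hcv
            rw [Function.update_self] at hc
            simp only [Option.some.injEq] at hc
            rw [← hc]
            simpa using hy
          · rw [Function.update_of_ne hcv] at hc
            exact hκ c b hc
      · have hb := hκ _ _ hk
        cases b
        · simp only [hb]
          exact h0 κ hκ
        · simp only [hb, if_true]
          exact h1 κ hκ
    · rw [if_neg hv]
      have hp : plant σ y v = false := by simp [plant, hv]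
      simp only [DT.eval, hp]
      exact h0 κ hκ

/-- the functions that agree with `σ0` where something is known -/
def Ek (κ : C → Option Bool) (σ0 : C → Fin r) : Finset (C → Fin r) :=
  univ.filter fun σ => ∀ c, κ c ≠ none → σ c = σ0 c

theorem mem_Ek {κ : C → Option Bool} {σ0 σ : C → Fin r} :
    σ ∈ Ek κ σ0 ↔ ∀ c, κ c ≠ none → σ c = σ0 c := by
  simp [Ek]

theorem Ek_step {κ : C → Option Bool} {σ0 : C → Fin r} {c : C} (hc : κ c = none) (b : Bool)
    (j : Fin r) :
    (Ek (Function.update κ c (some b)) (Function.update σ0 c j)).card * r = (Ek κ σ0).card := by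
  have h1 : (Ek (Function.update κ c (some b)) (Function.update σ0 c j)).card * r =
      ((Ek (Function.update κ c (some b)) (Function.update σ0 c j)) ×ˢ
        (univ : Finset (Fin r))).card := by
    rw [Finset.card_product, Finset.card_univ, Fintype.card_fin]
  rw [h1]
  apply Finset.card_bij (fun p _ => Function.update p.1 c p.2)
  · rintro ⟨σ, i⟩ hp
    rw [Finset.mem_product, mem_Ek] at hp
    rw [mem_Ek]
    intro c' hc'
    have hne : c' ≠ c := by
      rintro rfl
      exact hc' hc
    show Function.update σ c i c' = σ0 c'
    rw [Function.update_of_ne hne]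
    have := hp.1 c' (by rw [Function.update_of_ne hne]; exact hc')
    rw [Function.update_of_ne hne] at this
    exact this
  · rintro ⟨σ, i⟩ hp ⟨σ', i'⟩ hp' heq
    rw [Finset.mem_product, mem_Ek] at hp hp'
    change Function.update σ c i = Function.update σ' c i' at heq
    have hi : i = i' := by
      have := congrFun heq c
      rwa [Function.update_self, Function.update_self] at this
    have hσ : σ = σ' := by
      funext c'
      by_cases hcc : c' = c
      · subst hcc
        have h2 := hp.1 c' (by rw [Function.update_self]; simp)
        have h3 := hp'.1 c' (by rw [Function.update_self]; simp)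
        exact h2.trans h3.symm
      · have := congrFun heq c'
        rwa [Function.update_of_ne hcc, Function.update_of_ne hcc] at this
    rw [hi, hσ]
  · intro σ hσ
    rw [mem_Ek] at hσ
    refine ⟨(Function.update σ c j, σ c), ?_, ?_⟩
    · rw [Finset.mem_product, mem_Ek]
      refine ⟨?_, Finset.mem_univ _⟩
      intro c' hc'
      show Function.update σ c j c' = Function.update σ0 c j c'
      by_cases hcc : c' = c
      · subst hcc
        rw [Function.update_self, Function.update_self]
      · rw [Function.update_of_ne hcc, Function.update_of_ne hcc]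
        rw [Function.update_of_ne hcc] at hc'
        exact hσ c' hc'
    · show Function.update (Function.update σ c j) c (σ c) = σ
      rw [Function.update_idem, Function.update_eq_self]

/-- **the counting lemma** -/
theorem count_touch : ∀ (t : DT (C × Fin r)) (κ : C → Option Bool) (σ0 : C → Fin r) (q i : ℕ),
    t.depth ≤ q → ((Ek κ σ0).filter fun σ => i ≤ (res σ t κ).depth).card * r ^ i ≤
      q.choose i * 2 ^ i * (Ek κ σ0).card := by
  intro t
  induction t with
  | leaf b =>
    intro κ σ0 q i _
    cases i with
    | zero =>
      simp only [pow_zero, mul_one, Nat.choose_zero_right, one_mul]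
      exact Finset.card_filter_le _ _
    | succ i =>
      have h1 : ((Ek κ σ0).filter fun σ => i + 1 ≤ (res σ (DT.leaf b) κ).depth) = ∅ := by
        apply Finset.filter_eq_empty_iff.2
        intro σ _
        show ¬ (i + 1 ≤ 0)
        omega
      rw [h1, Finset.card_empty, Nat.zero_mul]
      exact Nat.zero_le _
  | node v t0 t1 h0 h1 =>
    intro κ σ0 q i hq
    obtain ⟨q, rfl⟩ : ∃ q', q = q' + 1 := by
      refine ⟨q - 1, ?_⟩
      simp only [DT.depth] at hq
      omega
    simp only [DT.depth] at hq
    have hq0 : t0.depth ≤ q := by omega
    have hq1 : t1.depth ≤ q := by omega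
    cases i with
    | zero =>
      simp only [pow_zero, mul_one, Nat.choose_zero_right, one_mul]
      exact Finset.card_filter_le _ _
    | succ i =>
      have hmono : q.choose (i + 1) * 2 ^ (i + 1) * (Ek κ σ0).card ≤
          (q + 1).choose (i + 1) * 2 ^ (i + 1) * (Ek κ σ0).card := by
        apply Nat.mul_le_mul_right
        apply Nat.mul_le_mul_right
        rw [Nat.choose_succ_succ]
        exact Nat.le_add_left _ _
      rcases hk : κ v.1 with _ | b
      · -- untouched
        have hsub : ((Ek κ σ0).filter fun σ => i + 1 ≤ (res σ (DT.node v t0 t1) κ).depth) ⊆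
            ((Ek κ σ0).filter fun σ => i + 1 ≤ (res σ t0 κ).depth) ∪
            (((Ek (Function.update κ v.1 (some false)) (Function.update σ0 v.1 v.2)).filter
              fun σ => i ≤ (res σ t0 (Function.update κ v.1 (some false))).depth) ∪
            ((Ek (Function.update κ v.1 (some true)) (Function.update σ0 v.1 v.2)).filter
              fun σ => i ≤ (res σ t1 (Function.update κ v.1 (some true))).depth)) := by
          intro σ hσ
          rw [Finset.mem_filter] at hσ
          obtain ⟨hσ, hd⟩ := hσ
          by_cases hv : σ v.1 = v.2
          · have hE : ∀ b, σ ∈ Ek (Function.update κ v.1 (some b)) (Function.update σ0 v.1 v.2) := by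
              intro b
              rw [mem_Ek] at hσ ⊢
              intro c hc
              by_cases hcv : c = v.1
              · subst hcv
                rw [Function.update_self]
                exact hv
              · rw [Function.update_of_ne hcv]
                rw [Function.update_of_ne hcv] at hc
                exact hσ c hc
            unfold res at hd
            rw [if_pos hv, hk] at hd
            simp only [DT.depth] at hd
            apply Finset.mem_union_right
            have h3 : i ≤ (res σ t0 (Function.update κ v.1 (some false))).depth ∨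
                i ≤ (res σ t1 (Function.update κ v.1 (some true))).depth := by
              rw [← le_max_iff]
              omega
            rcases h3 with h3 | h3
            · exact Finset.mem_union_left _ (Finset.mem_filter.2 ⟨hE _, h3⟩)
            · exact Finset.mem_union_right _ (Finset.mem_filter.2 ⟨hE _, h3⟩)
          · unfold res at hd
            rw [if_neg hv] at hd
            exact Finset.mem_union_left _ (Finset.mem_filter.2 ⟨hσ, hd⟩)
        have hcard := (Finset.card_le_card hsub).trans ((Finset.card_union_le _ _).trans
          (Nat.add_le_add_left (Finset.card_union_le _ _) _))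
        have e0 := h0 κ σ0 q (i + 1) hq0
        have e1 := h0 (Function.update κ v.1 (some false)) (Function.update σ0 v.1 v.2) q i hq0
        have e2 := h1 (Function.update κ v.1 (some true)) (Function.update σ0 v.1 v.2) q i hq1
        have s1 := Ek_step (σ0 := σ0) hk false v.2
        have s2 := Ek_step (σ0 := σ0) hk true v.2
        generalize ((Ek κ σ0).filter fun σ => i + 1 ≤ (res σ (DT.node v t0 t1) κ).depth).card = N
          at hcard ⊢
        generalize ((Ek κ σ0).filter fun σ => i + 1 ≤ (res σ t0 κ).depth).card = N0 at hcard e0
        generalize ((Ek (Function.update κ v.1 (some false)) (Function.update σ0 v.1 v.2)).filter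
              fun σ => i ≤ (res σ t0 (Function.update κ v.1 (some false))).depth).card = N1
          at hcard e1
        generalize ((Ek (Function.update κ v.1 (some true)) (Function.update σ0 v.1 v.2)).filter
              fun σ => i ≤ (res σ t1 (Function.update κ v.1 (some true))).depth).card = N2
          at hcard e2
        generalize (Ek κ σ0).card = E at *
        generalize (Ek (Function.update κ v.1 (some false)) (Function.update σ0 v.1 v.2)).card = E1
          at *
        generalize (Ek (Function.update κ v.1 (some true)) (Function.update σ0 v.1 v.2)).card = E2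
          at *
        have f1 : N1 * r ^ (i + 1) ≤ q.choose i * 2 ^ i * E := by
          calc N1 * r ^ (i + 1) = N1 * r ^ i * r := by ring
            _ ≤ q.choose i * 2 ^ i * E1 * r := Nat.mul_le_mul_right _ e1
            _ = q.choose i * 2 ^ i * (E1 * r) := by ring
            _ = _ := by rw [s1]
        have f2 : N2 * r ^ (i + 1) ≤ q.choose i * 2 ^ i * E := by
          calc N2 * r ^ (i + 1) = N2 * r ^ i * r := by ring
            _ ≤ q.choose i * 2 ^ i * E2 * r := Nat.mul_le_mul_right _ e2
            _ = q.choose i * 2 ^ i * (E2 * r) := by ring
            _ = _ := by rw [s2]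
        calc N * r ^ (i + 1) ≤ (N0 + (N1 + N2)) * r ^ (i + 1) := Nat.mul_le_mul_right _ hcard
          _ = N0 * r ^ (i + 1) + (N1 * r ^ (i + 1) + N2 * r ^ (i + 1)) := by ring
          _ ≤ q.choose (i + 1) * 2 ^ (i + 1) * E + (q.choose i * 2 ^ i * E +
              q.choose i * 2 ^ i * E) := Nat.add_le_add e0 (Nat.add_le_add f1 f2)
          _ = (q + 1).choose (i + 1) * 2 ^ (i + 1) * E := by
              rw [Nat.choose_succ_succ]
              ring
      · -- touched before
        refine le_trans ?_ hmono
        by_cases hv : σ0 v.1 = v.2
        · cases b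
          · refine le_trans (Nat.mul_le_mul_right _ (Finset.card_le_card ?_))
              (h0 κ σ0 q (i + 1) hq0)
            intro σ hσ
            rw [Finset.mem_filter] at hσ ⊢
            refine ⟨hσ.1, ?_⟩
            have h3 := hσ.2
            have h4 : σ v.1 = v.2 := by
              rw [mem_Ek.1 hσ.1 v.1 (by rw [hk]; simp)]
              exact hv
            unfold res at h3
            rw [if_pos h4, hk] at h3
            exact h3
          · refine le_trans (Nat.mul_le_mul_right _ (Finset.card_le_card ?_))
              (h1 κ σ0 q (i + 1) hq1)
            intro σ hσ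
            rw [Finset.mem_filter] at hσ ⊢
            refine ⟨hσ.1, ?_⟩
            have h3 := hσ.2
            have h4 : σ v.1 = v.2 := by
              rw [mem_Ek.1 hσ.1 v.1 (by rw [hk]; simp)]
              exact hv
            unfold res at h3
            rw [if_pos h4, hk] at h3
            exact h3
        · refine le_trans (Nat.mul_le_mul_right _ (Finset.card_le_card ?_))
            (h0 κ σ0 q (i + 1) hq0)
          intro σ hσ
          rw [Finset.mem_filter] at hσ ⊢
          refine ⟨hσ.1, ?_⟩
          have h3 := hσ.2
          have h4 : ¬ σ v.1 = v.2 := by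
            rw [mem_Ek.1 hσ.1 v.1 (by rw [hk]; simp)]
            exact hv
          unfold res at h3
          rw [if_neg h4] at h3
          exact h3

/-- **positions at which no tree finds many hidden bits** -/
theorem exists_pos {ι : Type} [Fintype ι] (T : ι → DT (C × Fin r)) {q i : ℕ}
    (hq : ∀ j, (T j).depth ≤ q) (hn : Fintype.card ι * (2 * q) ^ i < r ^ i) (hr : 1 ≤ r) :
    ∃ σ : C → Fin r, ∀ j, (res σ (T j) fun _ => none).depth < i := by
  classical
  by_contra hcon
  push Not at hcon
  let σ0 : C → Fin r := fun _ => ⟨0, hr⟩
  have hE : Ek (fun _ => none) σ0 = (univ : Finset (C → Fin r)) := by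
    ext σ
    rw [mem_Ek]
    simp
  have hcov : (univ : Finset (C → Fin r)) ⊆ univ.biUnion fun j : ι =>
      (Ek (fun _ => none) σ0).filter fun σ => i ≤ (res σ (T j) fun _ => none).depth := by
    intro σ _
    obtain ⟨j, hj⟩ := hcon σ
    rw [Finset.mem_biUnion]
    refine ⟨j, Finset.mem_univ _, ?_⟩
    rw [Finset.mem_filter, hE]
    exact ⟨Finset.mem_univ _, hj⟩
  have h1 := (Finset.card_le_card hcov).trans Finset.card_biUnion_le
  have h2 : ∀ j : ι, ((Ek (fun _ => none) σ0).filter fun σ =>
      i ≤ (res σ (T j) fun _ => none).depth).card * r ^ i ≤
        (2 * q) ^ i * (univ : Finset (C → Fin r)).card := by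
    intro j
    refine (count_touch (T j) _ σ0 q i (hq j)).trans ?_
    rw [hE]
    apply Nat.mul_le_mul_right
    rw [mul_pow, mul_comm]
    apply Nat.mul_le_mul_left
    exact Nat.choose_le_pow q i
  have h3 : (univ : Finset (C → Fin r)).card * r ^ i ≤
      Fintype.card ι * (2 * q) ^ i * (univ : Finset (C → Fin r)).card := by
    calc (univ : Finset (C → Fin r)).card * r ^ i
        ≤ (∑ j : ι, ((Ek (fun _ => none) σ0).filter fun σ =>
            i ≤ (res σ (T j) fun _ => none).depth).card) * r ^ i := Nat.mul_le_mul_right _ h1
      _ = ∑ j : ι, ((Ek (fun _ => none) σ0).filter fun σ =>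
            i ≤ (res σ (T j) fun _ => none).depth).card * r ^ i := Finset.sum_mul _ _ _
      _ ≤ ∑ _j : ι, (2 * q) ^ i * (univ : Finset (C → Fin r)).card :=
          Finset.sum_le_sum fun j _ => h2 j
      _ = _ := by
          rw [Finset.sum_const, Finset.card_univ, smul_eq_mul, mul_assoc]
  have h4 : 0 < (univ : Finset (C → Fin r)).card := Finset.card_pos.2 ⟨σ0, Finset.mem_univ _⟩
  have h5 := Nat.mul_lt_mul_of_pos_right hn h4
  rw [mul_comm (r ^ i)] at h5
  omega

/-- computed by a tree of depth `m` -/
def Dm {V : Type} (m : ℕ) (f : (V → Bool) → Bool) : Prop :=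
  ∃ t : DT V, t.depth ≤ m ∧ ∀ x, t.eval x = f x

omit [Fintype C] in
/-- a tree of depth `m` depends on few variables -/
theorem Dm.toJ {m : ℕ} {f : (C → Bool) → Bool} (h : Dm m f) : J (2 ^ m) f := by
  have key : ∀ t : DT C, ∃ R : Finset C, R.card + 1 ≤ 2 ^ t.depth ∧
      ∀ x y, (∀ v ∈ R, x v = y v) → t.eval x = t.eval y := by
    intro t
    induction t with
    | leaf b => exact ⟨∅, by simp [DT.depth], fun _ _ _ => rfl⟩
    | node v t0 t1 h0 h1 =>
      obtain ⟨R0, a0, b0⟩ := h0
      obtain ⟨R1, a1, b1⟩ := h1
      refine ⟨insert v (R0 ∪ R1), ?_, ?_⟩
      · have c1 := Finset.card_insert_le v (R0 ∪ R1)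
        have c2 := Finset.card_union_le R0 R1
        have c3 : 2 ^ t0.depth ≤ 2 ^ max t0.depth t1.depth :=
          Nat.pow_le_pow_right (by norm_num) (le_max_left _ _)
        have c4 : 2 ^ t1.depth ≤ 2 ^ max t0.depth t1.depth :=
          Nat.pow_le_pow_right (by norm_num) (le_max_right _ _)
        simp only [DT.depth, pow_succ]
        omega
      · intro x y hxy
        have hv := hxy v (Finset.mem_insert_self _ _)
        simp only [DT.eval, hv]
        rw [b0 x y fun w hw => hxy w (Finset.mem_insert_of_mem (Finset.mem_union_left _ hw)),
          b1 x y fun w hw => hxy w (Finset.mem_insert_of_mem (Finset.mem_union_right _ hw))]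
  obtain ⟨t, h1, h2⟩ := h
  obtain ⟨R, h3, h4⟩ := key t
  refine ⟨R, ?_, ?_⟩
  · have := Nat.pow_le_pow_right (show 0 < 2 by norm_num) h1
    omega
  · intro x y hxy
    rw [← h2, ← h2]
    exact h4 x y hxy

end Pool.Agent.WSatQ97
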