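import Pool.Agent.WSatAC0.Def
import Pool.Agent.ParityAC.Switch

/-! Local reductions: every output bit is computed with few questions about the input. -/

namespace Pool.Agent.WSatQ97

open Pool.Agent.WSatChain Pool.Agent.WSatAC0 Pool.Agent.ParityAC

open Classical in
/-- The increasing list of the inputs of the node `g` (for `d = true`) or of the nodes that have
`g` as an input (for `d = false`). -/
noncomputable def nbrs {n : ℕ} (C : Circ (Fin n)) (d : Bool) (g : Fin n) : List (Fin n) :=
  (Finset.univ.filter fun h => if d then C.wire g h else C.wire h g).sort (fun a b => a ≤ b)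

/-- Questions about a circuit on the nodes `0, …, n - 1` that is given by its bits (type of a node,
output mark, whether `h` is an input of `g`) and by the lists `nbrs`: the bits; whether the list
`nbrs d g` has more than `i` entries; and the binary digit number `l` of the entry number `i` of
the list `nbrs d g`. -/
inductive Probe (n : ℕ) : Type
  | bit (b : Bit n)
  | more (d : Bool) (g : Fin n) (i : ℕ)
  | name (d : Bool) (g : Fin n) (i l : ℕ)

/-- The answers. -/
noncomputable def answers {n : ℕ} (C : Circ (Fin n)) : Probe n → Bool
  | .bit b => bits C b
  | .more d g i => decide (i < (nbrs C d g).length)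
  | .name d g i l => ((nbrs C d g)[i]?).any fun h => h.1.testBit l

/-- `f` is computed by a decision tree of depth at most `q`: at most `q` questions are asked, and
each may depend on the answers to the previous ones. -/
def Reads {V : Type} (q : ℝ) (f : (V → Bool) → Bool) : Prop :=
  ∃ t : DT V, (t.depth : ℝ) ≤ q ∧ ∀ x, t.eval x = f x

/-- The slice `k` of `p-WSAT(A)` reduces to `p-WSAT(B)` by local many-one reductions with `q n`
questions: for some `e` and every size `n` there is a map `F n` from circuits on `n` nodes to
labelled graphs with at most `e * (n + 1) ^ e` nodes and a new parameter at most `e`, such that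
every output bit is computed with at most `q n` questions about the input, and for every circuit
`C ∈ A` on the nodes `0, …, n - 1` the image is in `B`, and `C` is `k`-satisfiable exactly if the
image is satisfiable by an assignment whose weight is the new parameter. Nothing is required about
how `F n` depends on `n`. -/
def SliceLoc (q : ℕ → ℝ) (k : ℕ) (A B : CClass) : Prop :=
  ∃ (e : ℕ) (F : ∀ n : ℕ, Red (Probe n)),
    (∀ n, (F n).All (Reads (q n)) ∧ (F n).M ≤ e * (n + 1) ^ e ∧ (F n).K ≤ e) ∧
    ∀ (n : ℕ) (C : Circ (Fin n)), A _ C →
      B _ ((F n).apply (answers C)) ∧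
      (C.WSat k ↔ ((F n).apply (answers C)).WSat ((F n).param (answers C)))

/-- The same with `e` maps instead of one and with an arbitrary truth table `T n`: whether `C` is
`k`-satisfiable is determined by the `e` answers to the questions whether the images are
satisfiable by assignments of the weights given by their parameters. -/
def SliceTT (q : ℕ → ℝ) (k : ℕ) (A B : CClass) : Prop :=
  ∃ (e : ℕ) (F : ∀ n : ℕ, Fin e → Red (Probe n)) (T : ℕ → (Fin e → Prop) → Prop),
    (∀ n i, (F n i).All (Reads (q n)) ∧ (F n i).M ≤ e * (n + 1) ^ e ∧ (F n i).K ≤ e) ∧
    ∀ (n : ℕ) (C : Circ (Fin n)), A _ C →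
      (∀ i, B _ ((F n i).apply (answers C))) ∧
      (C.WSat k ↔ T n fun i => ((F n i).apply (answers C)).WSat ((F n i).param (answers C)))

/-- The circuits in `A` that have at most twice as many wires as nodes. -/
def Sparse (A : CClass) : CClass :=
  fun U C => A U C ∧ Nat.card {p : U × U // C.wire p.1 p.2} ≤ 2 * Nat.card U

end Pool.Agent.WSatQ97
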