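import Pool.Agent.WSatQ97.SrcHi

/-! Weighted satisfiability of the source formulas of the higher links. -/

namespace Pool.Agent.WSatQ97

open Finset Pool.Agent.WSatChain Pool.Agent.WSatAC0 Pool.Agent.ParityAC

section sem

variable {k s r : ℕ} {B : Type} [Fintype B] {w : Cx B s × Fin r → Bool}
  {val : UH k s r B → Prop} {γ : B → ZMod 2}

/-- exactly the forced variables and one variable of the group are true -/
structure SelH (val : UH k s r B → Prop) (γ : B → ZMod 2) : Prop where
  even : ∑ x, γ x = 0
  frc : ∀ i, val (.inl (.frc i))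
  gam : ∀ γ', val (.inl (.gam γ')) ↔ γ'.1 = γ
  lv : ∀ g, ¬ val (.inl (.lv g))
  fv : ∀ g, ¬ val (.inr (g, false))

/-- the hidden bits -/
def HidH (w : Cx B s × Fin r → Bool) (ζ : List B → ZMod 2) : Prop :=
  ∀ (L : {L : Hist B // okL L ∧ L.length = s}) (j : B),
    (∃ i, w ((L, j), i) = true) ↔ ζ (j :: pth L.1) ≠ hd 0 L.1 j

/-- the evaluation of the circuit with exchanged inputs -/
abbrev EvH (w : Cx B s × Fin r → Bool) (val : UH k s r B → Prop) : Prop :=
  (sw (srcH k s r B) w).IsEval val

theorem grpG_valH (hv : EvH w val) (hs : SelH val γ) : val (.inl .grpG) := by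
  rw [hv.or (.inl .grpG) trivial]
  exact ⟨.inl (.gam ⟨γ, hs.even⟩), trivial, (hs.gam _).2 rfl⟩

theorem dump_valH (hv : EvH w val) (hs : SelH val γ) : val (.inl .dump) := by
  rw [hv.or (.inl .dump) trivial]
  exact ⟨.inl (.gam ⟨γ, hs.even⟩), trivial, (hs.gam _).2 rfl⟩

theorem not_valH (hv : EvH w val) (hs : SelH val γ) (g : Cx B s × Fin r) :
    val (.inr (g, true)) := by
  rw [hv.not (.inr (g, true)) rfl]
  intro h hw
  change wrH _ (tw w h) at hw
  rcases h with (h | h | h | h | L' | h) | ⟨p', c'⟩ <;> simp only [tw, wrH] at hw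
  exact hs.lv _

theorem inr_valH (hv : EvH w val) (hs : SelH val γ) (g : Cx B s × Fin r) (c : Bool) :
    val (.inr (g, c)) ↔ c = true := by
  cases c
  · simp only [Bool.false_eq_true, iff_false]
    exact hs.fv g
  · simp only [iff_true]
    exact not_valH hv hs g

variable {ζ : List B → ZMod 2}

theorem gate_semH (hv : EvH w val) (hs : SelH val γ) (hh : HidH w ζ) :
    ∀ (r' : ℕ) (L : Hist B) (h : okL L ∧ L.length ≤ s), L ≠ [] →
    L.length + r' = s → (val (.inl (.gate ⟨L, h⟩)) ↔ ex1 γ L ∨ sem γ ζ r' L) := by
  intro r'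
  induction r' with
  | zero =>
    intro L h hne hr
    rw [Nat.add_zero] at hr
    by_cases hL : Even L.length
    · have he : Even s := by rw [← hr]; exact hL
      have hx1 : ¬ ex1 γ L := fun h1 => ex1_odd h1 hL
      rw [sem_even hL, hv.and (.inl (.gate ⟨L, h⟩)) hL, or_iff_right hx1]
      have key : (∀ x, (sw (srcH k s r B) w).wire (.inl (.gate ⟨L, h⟩)) x → val x) ↔
          ∀ j i, w ((⟨L, h.1, hr⟩, j), i) = false := by
        constructor
        · intro h1 j i
          by_contra hcon
          rw [Bool.not_eq_false] at hcon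
          have h2 := h1 (.inr (((⟨L, h.1, hr⟩, j), i), false)) ⟨rfl, by simp [he, hcon]⟩
          exact hs.fv _ h2
        · intro h1 x hw
          change wrH _ (tw w x) at hw
          rcases x with (i | γ' | _ | _ | L' | g) | ⟨p, c⟩ <;> simp only [tw, wrH] at hw
          · exact absurd hw hne
          · obtain ⟨p, rfl, _⟩ := hw
            exact absurd hL (by simp)
          · exact absurd hw hne
          · exact absurd hw hne
          · obtain ⟨p, hp⟩ := hw
            have h2 := L'.2.2
            rw [hp, List.length_cons] at h2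
            omega
          · rw [inr_valH hv hs]
            obtain ⟨h2, h3⟩ := hw
            have h4 : p.1.1 = ⟨L, h.1, hr⟩ := Subtype.ext h2.symm
            have h5 : w p = false := by
              have := h1 p.1.2 p.2
              rw [← h4] at this
              exact this
            rw [h5] at h3
            simpa [he] using h3
      rw [key]
      constructor
      · intro h1 j
        show ζ (j :: pth L) = hd γ L j
        rw [hd_ne (g' := 0) hne]
        by_contra hcon
        obtain ⟨i, hi⟩ := (hh ⟨L, h.1, hr⟩ j).2 hcon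
        rw [h1 j i] at hi
        exact absurd hi (by simp)
      · intro h1 j i
        by_contra hcon
        rw [Bool.not_eq_false] at hcon
        apply (hh ⟨L, h.1, hr⟩ j).1 ⟨i, hcon⟩
        have := h1 j
        change ζ (j :: pth L) = hd γ L j at this
        rw [hd_ne (g' := 0) hne] at this
        exact this
    · have ho : ¬ Even s := by rw [← hr]; exact hL
      rw [sem_odd hL, hv.or (.inl (.gate ⟨L, h⟩)) hL]
      have key : (∃ x, (sw (srcH k s r B) w).wire (.inl (.gate ⟨L, h⟩)) x ∧ val x) ↔
          ex1 γ L ∨ ∃ j i, w ((⟨L, h.1, hr⟩, j), i) = true := by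
        constructor
        · rintro ⟨x, hw, hx⟩
          change wrH _ (tw w x) at hw
          rcases x with (i | γ' | _ | _ | L' | g) | ⟨p, c⟩ <;> simp only [tw, wrH] at hw
          · exact absurd hw hne
          · rw [hs.gam] at hx
            rw [hx] at hw
            exact Or.inl hw
          · exact absurd hw hne
          · exact absurd hw hne
          · obtain ⟨p, hp⟩ := hw
            have h2 := L'.2.2
            rw [hp, List.length_cons] at h2
            omega
          · rw [inr_valH hv hs] at hx
            obtain ⟨h2, h3⟩ := hw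
            have h4 : p.1.1 = ⟨L, h.1, hr⟩ := Subtype.ext h2.symm
            refine Or.inr ⟨p.1.2, p.2, ?_⟩
            rw [← h4]
            show w p = true
            subst hx
            simpa [ho] using h3
        · rintro (h1 | ⟨j, i, hi⟩)
          · exact ⟨.inl (.gam ⟨γ, hs.even⟩), h1, (hs.gam _).2 rfl⟩
          · exact ⟨.inr (((⟨L, h.1, hr⟩, j), i), true), ⟨rfl, by simp [ho, hi]⟩,
              not_valH hv hs _⟩
      rw [key]
      apply or_congr Iff.rfl
      apply exists_congr
      intro j
      rw [hh ⟨L, h.1, hr⟩ j]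
      show ζ (j :: pth L) ≠ hd 0 L j ↔ ζ (j :: pth L) ≠ hd γ L j
      rw [hd_ne (g' := γ) hne]
  | succ r' ih =>
    intro L h hne hr
    by_cases hL : Even L.length
    · have hx1 : ¬ ex1 γ L := fun h1 => ex1_odd h1 hL
      rw [sem_step_even hL, hv.and (.inl (.gate ⟨L, h⟩)) hL, or_iff_right hx1]
      constructor
      · intro h1 j h' hs'
        have hval : okL ((j, h') :: L) ∧ ((j, h') :: L).length ≤ s :=
          ⟨⟨h.1, Or.inr (by rw [hd_ne (g' := γ) hne]; exact hs')⟩, by rw [List.length_cons]; omega⟩
        have h2 := h1 (.inl (.gate ⟨_, hval⟩)) ⟨_, rfl⟩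
        rw [ih _ hval (by simp) (by rw [List.length_cons]; omega)] at h2
        rcases h2 with ⟨p, hp, _⟩ | h2
        · simp only [List.cons.injEq] at hp
          exact absurd hp.2 hne
        · exact h2
      · intro h1 x hw
        change wrH _ (tw w x) at hw
        rcases x with (i | γ' | _ | _ | L' | g) | ⟨p, c⟩ <;> simp only [tw, wrH] at hw
        · exact absurd hw hne
        · obtain ⟨p, rfl, _⟩ := hw
          exact absurd hL (by simp)
        · exact absurd hw hne
        · exact absurd hw hne
        · obtain ⟨L', hL'⟩ := L'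
          obtain ⟨p, hp⟩ := hw
          change L' = p :: L at hp
          subst hp
          rw [ih _ hL' (by simp) (by rw [List.length_cons]; omega)]
          refine Or.inr (h1 p.1 p.2 ?_)
          rw [hd_ne (g' := 0) hne]
          exact hL'.1.2.resolve_left hne
        · have h2 := p.1.1.2.2
          rw [← hw.1] at h2
          change L.length = s at h2
          omega
    · rw [sem_step_odd hL, hv.or (.inl (.gate ⟨L, h⟩)) hL]
      constructor
      · rintro ⟨x, hw, h1⟩
        change wrH _ (tw w x) at hw
        rcases x with (i | γ' | _ | _ | L' | g) | ⟨p, c⟩ <;> simp only [tw, wrH] at hw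
        · exact absurd hw hne
        · rw [hs.gam] at h1
          rw [h1] at hw
          exact Or.inl hw
        · exact absurd hw hne
        · exact absurd hw hne
        · obtain ⟨L', hL'⟩ := L'
          obtain ⟨p, hp⟩ := hw
          change L' = p :: L at hp
          subst hp
          rw [ih _ hL' (by simp) (by rw [List.length_cons]; omega)] at h1
          rcases h1 with ⟨p', hp, _⟩ | h1
          · simp only [List.cons.injEq] at hp
            exact absurd hp.2 hne
          · refine Or.inr ⟨p.1, p.2, ?_, h1⟩
            rw [hd_ne (g' := 0) hne]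
            exact hL'.1.2.resolve_left hne
        · have h2 := p.1.1.2.2
          rw [← hw.1] at h2
          change L.length = s at h2
          omega
      · rintro (h1 | ⟨j, h', hs', h1⟩)
        · exact ⟨.inl (.gam ⟨γ, hs.even⟩), h1, (hs.gam _).2 rfl⟩
        · have hval : okL ((j, h') :: L) ∧ ((j, h') :: L).length ≤ s :=
            ⟨⟨h.1, Or.inr (by rw [hd_ne (g' := γ) hne]; exact hs')⟩,
              by rw [List.length_cons]; omega⟩
          refine ⟨.inl (.gate ⟨_, hval⟩), ⟨_, rfl⟩, ?_⟩
          rw [ih _ hval (by simp) (by rw [List.length_cons]; omega)]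
          exact Or.inr h1

/-- the value of the output -/
theorem root_valH (hv : EvH w val) (hs : SelH val γ) (hh : HidH w ζ) (hs1 : 1 ≤ s) :
    val rootH ↔ ∀ j, bp ζ s [j] = γ j := by
  obtain ⟨s, rfl⟩ : ∃ s', s = s' + 1 := ⟨s - 1, by omega⟩
  have he0 : Even (([] : Hist B)).length := by simp
  have hsem : (∀ j, bp ζ (s + 1) [j] = γ j) ↔ sem γ ζ (s + 1) [] := by
    rw [sem_even he0]
    rfl
  rw [hsem, sem_step_even he0]
  unfold rootH
  rw [hv.and (.inl (.gate ⟨[], trivial, Nat.zero_le _⟩)) he0]
  constructor
  · intro h1 j h' hs'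
    have hval : okL [(j, h')] ∧ [(j, h')].length ≤ s + 1 := ⟨⟨trivial, Or.inl rfl⟩, by simp⟩
    have h2 := h1 (.inl (.gate ⟨_, hval⟩)) ⟨_, rfl⟩
    rw [gate_semH hv hs hh s _ hval (by simp) (by simp [add_comm])] at h2
    rcases h2 with ⟨p, hp, hp2⟩ | h2
    · exfalso
      simp only [List.cons.injEq, and_true] at hp
      subst hp
      change ∑ x, h' x = γ j + 1 at hs'
      rw [zmod_flip] at hs'
      exact hs' hp2
    · exact h2
  · intro h1 x hw
    change wrH _ (tw w x) at hw
    rcases x with (i | γ' | _ | _ | L' | g) | ⟨p, c⟩ <;> simp only [tw, wrH] at hw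
    · exact hs.frc _
    · obtain ⟨p, hp, _⟩ := hw
      simp at hp
    · exact grpG_valH hv hs
    · exact dump_valH hv hs
    · obtain ⟨L', hL'⟩ := L'
      obtain ⟨p, hp⟩ := hw
      change L' = [p] at hp
      subst hp
      rw [gate_semH hv hs hh s _ hL' (by simp) (by simp [add_comm])]
      by_cases hp : γ p.1 = ∑ x, p.2 x
      · exact Or.inl ⟨p, rfl, hp⟩
      · refine Or.inr (h1 p.1 p.2 ?_)
        show ∑ x, p.2 x = γ p.1 + 1
        rw [zmod_flip]
        exact hp
    · have h2 := p.1.1.2.2
      rw [← hw.1] at h2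
      simp at h2

instance finLe : Finite {L : Hist B // okL L ∧ L.length ≤ s} := by
  classical
  have : Finite {L : Hist B // L.length ≤ s} := List.finite_length_le _ s |>.to_subtype
  exact Finite.of_injective (fun L => (⟨L.1, L.2.2⟩ : {L : Hist B // L.length ≤ s}))
    fun a b h => Subtype.ext (congrArg (fun x => x.1) h)

instance finEq : Finite {L : Hist B // okL L ∧ L.length = s} :=
  Finite.of_injective
    (fun L => (⟨L.1, L.2.1, L.2.2.le⟩ : {L : Hist B // okL L ∧ L.length ≤ s}))
    fun a b h => Subtype.ext (congrArg (fun x => x.1) h)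

/-- the nodes as a sum -/
def N0sum (k s r : ℕ) (B : Type) [Fintype B] :
    N0 k s r B ≃ (Fin k ⊕ {γ : B → ZMod 2 // ∑ x, γ x = 0}) ⊕
        (Bool ⊕ ({L : Hist B // okL L ∧ L.length ≤ s} ⊕ (Cx B s × Fin r))) where
  toFun x := match x with
      | .frc i => .inl (.inl i)
      | .gam γ => .inl (.inr γ)
      | .grpG => .inr (.inl false)
      | .dump => .inr (.inl true)
      | .gate L => .inr (.inr (.inl L))
      | .lv g => .inr (.inr (.inr g))
  invFun y := match y with
      | .inl (.inl i) => .frc i
      | .inl (.inr γ) => .gam γ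
      | .inr (.inl false) => .grpG
      | .inr (.inl true) => .dump
      | .inr (.inr (.inl L)) => .gate L
      | .inr (.inr (.inr g)) => .lv g
  left_inv x := by cases x <;> rfl
  right_inv y := by rcases y with (_ | _) | (_ | _) | (_ | _) <;> rfl

instance finN0 : Finite (N0 k s r B) := Finite.of_equiv _ (N0sum k s r B).symm

noncomputable instance ftN0 : Fintype (N0 k s r B) := Fintype.ofFinite _

noncomputable instance ftCx : Fintype {L : Hist B // okL L ∧ L.length = s} := Fintype.ofFinite _

theorem UH_finite : Finite (UH k s r B) := inferInstance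

/-- **weighted satisfiability of the source** -/
theorem srcH_wsat (hs1 : 1 ≤ s) (hh : HidH w ζ) :
    (sw (srcH k s r B) w).WSat (k + 1) ↔ bp ζ (s + 1) [] = 0 := by
  have hfin := UH_finite (k := k) (s := s) (r := r) (B := B)
  have he0 : Even (([] : Hist B)).length := by simp
  constructor
  · rintro ⟨val, hv, hout, hcard⟩
    have hroot : val rootH := hout rootH rfl
    have hroot' := hroot
    unfold rootH at hroot'
    rw [hv.and (.inl (.gate ⟨[], trivial, Nat.zero_le _⟩)) he0] at hroot'
    have hfrc : ∀ i : Fin k, val (.inl (.frc i)) := fun i => hroot' (.inl (.frc i)) rfl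
    obtain ⟨γ, hγ⟩ : ∃ γ, val (.inl (.gam γ)) := by
      have h2 := hroot' (.inl .grpG) rfl
      rw [hv.or (.inl .grpG) trivial] at h2
      obtain ⟨x, hw, h3⟩ := h2
      change wrH _ (tw w x) at hw
      rcases x with (i | γ' | _ | _ | L' | g) | ⟨p, c⟩ <;> simp only [tw, wrH] at hw
      exact ⟨γ', h3⟩
    let φ : Option (Fin k) → {g // (sw (srcH k s r B) w).isVar g ∧ val g} := fun o =>
      match o with
      | none => ⟨.inl (.gam γ), trivial, hγ⟩
      | some i => ⟨.inl (.frc i), trivial, hfrc i⟩
    have hφ : Function.Injective φ := by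
      intro o o' h
      have h2 : (φ o).1 = (φ o').1 := by rw [h]
      cases o <;> cases o' <;> simp only [φ, reduceCtorEq, Sum.inl.injEq, N0.frc.injEq] at h2
      · rfl
      · rw [h2]
    have hbij : Function.Bijective φ := by
      have : Fintype {g // (sw (srcH k s r B) w).isVar g ∧ val g} := Fintype.ofFinite _
      rw [Fintype.bijective_iff_injective_and_card]
      refine ⟨hφ, ?_⟩
      rw [Fintype.card_option, Fintype.card_fin, ← Nat.card_eq_fintype_card, hcard]
    have hs : SelH val γ.1 := by
      refine ⟨γ.2, hfrc, ?_, ?_, ?_⟩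
      · intro γ'
        constructor
        · intro h
          obtain ⟨o, ho⟩ := hbij.2 ⟨.inl (.gam γ'), trivial, h⟩
          have h2 := congrArg (fun x => x.1) ho
          cases o <;> simp only [φ, reduceCtorEq, Sum.inl.injEq, N0.gam.injEq] at h2
          rw [h2]
        · intro h
          rw [Subtype.ext h]
          exact hγ
      · intro g h
        obtain ⟨o, ho⟩ := hbij.2 ⟨.inl (.lv g), trivial, h⟩
        have h2 := congrArg (fun x => x.1) ho
        cases o <;> simp only [φ, reduceCtorEq, Sum.inl.injEq] at h2
      · intro g h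
        obtain ⟨o, ho⟩ := hbij.2 ⟨.inr (g, false), rfl, h⟩
        have h2 := congrArg (fun x => x.1) ho
        cases o <;> simp only [φ, reduceCtorEq] at h2
    have h4 := (root_valH hv hs hh hs1).1 hroot
    show ∑ j, bp ζ s [j] = 0
    rw [Finset.sum_congr rfl fun j _ => h4 j]
    exact γ.2
  · intro h
    let γ : B → ZMod 2 := fun j => bp ζ s [j]
    have hγ0 : ∑ x, γ x = 0 := h
    obtain ⟨val, hv, hvar⟩ := eval_exists (sw_formula srcH_ok w).toIsCircuit
      (fun e : UH k s r B => (∃ i, e = .inl (.frc i)) ∨ e = .inl (.gam ⟨γ, hγ0⟩))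
    have hs : SelH val γ := by
      refine ⟨hγ0, ?_, ?_, ?_, ?_⟩
      · intro i
        exact (hvar (.inl (.frc i)) trivial).2 (Or.inl ⟨i, rfl⟩)
      · intro γ'
        refine (hvar (.inl (.gam γ')) trivial).trans ?_
        simp only [Sum.inl.injEq, reduceCtorEq, exists_false, false_or, N0.gam.injEq]
        exact Subtype.ext_iff
      · intro g hg
        have h2 := (hvar (.inl (.lv g)) trivial).1 hg
        simp at h2
      · intro g hg
        have h2 := (hvar (.inr (g, false)) rfl).1 hg
        simp at h2
    refine ⟨val, hv, ?_, ?_⟩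
    · intro g hg
      rw [out_rootH hg]
      exact (root_valH hv hs hh hs1).2 fun j => rfl
    · let φ : Option (Fin k) → {g // (sw (srcH k s r B) w).isVar g ∧ val g} := fun o =>
        match o with
        | none => ⟨.inl (.gam ⟨γ, hγ0⟩), trivial, (hs.gam _).2 rfl⟩
        | some i => ⟨.inl (.frc i), trivial, hs.frc i⟩
      have hφ : Function.Bijective φ := by
        constructor
        · intro o o' h
          have h2 : (φ o).1 = (φ o').1 := by rw [h]
          cases o <;> cases o' <;> simp only [φ, reduceCtorEq, Sum.inl.injEq, N0.frc.injEq] at h2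
          · rfl
          · rw [h2]
        · rintro ⟨x, hx, hvx⟩
          change hVar x at hx
          rw [hvar _ hx] at hvx
          rcases hvx with ⟨i, rfl⟩ | rfl
          · exact ⟨some i, rfl⟩
          · exact ⟨none, rfl⟩
      rw [← Nat.card_congr (Equiv.ofBijective φ hφ), Nat.card_eq_fintype_card,
        Fintype.card_option, Fintype.card_fin]

end sem

end Pool.Agent.WSatQ97
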