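import Pool.Agent.WSatQ97.Swap
import Pool.Agent.WSatAC0.NodesSem

/-! The source formulas of the higher links. -/

namespace Pool.Agent.WSatQ97

open Finset Pool.Agent.WSatChain Pool.Agent.WSatAC0 Pool.Agent.ParityAC

/-- histories -/
abbrev Hist (B : Type) : Type := List (B × (B → ZMod 2))

/-- the names of the hidden bits -/
abbrev Cx (B : Type) [Fintype B] (s : ℕ) : Type := {L : Hist B // okL L ∧ L.length = s} × B

/-- the nodes that are not exchanged -/
inductive N0 (k s r : ℕ) (B : Type) [Fintype B] : Type
  | frc (i : Fin k)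
  | gam (γ : {γ : B → ZMod 2 // ∑ x, γ x = 0})
  | grpG
  | dump
  | gate (L : {L : Hist B // okL L ∧ L.length ≤ s})
  | lv (g : Cx B s × Fin r)

section src

variable {k s r : ℕ} {B : Type} [Fintype B]

/-- all nodes -/
abbrev UH (k s r : ℕ) (B : Type) [Fintype B] : Type := N0 k s r B ⊕ ((Cx B s × Fin r) × Bool)

/-- the wires -/
def wrH : UH k s r B → UH k s r B → Prop
  | .inl (.gate L), .inl (.gate L') => ∃ p, L'.1 = p :: L.1
  | .inl (.gate L), .inl (.gam γ) => ∃ p, L.1 = [p] ∧ γ.1 p.1 = ∑ x, p.2 x
  | .inl (.gate L), .inl (.frc _) => L.1 = []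
  | .inl (.gate L), .inl .grpG => L.1 = []
  | .inl (.gate L), .inl .dump => L.1 = []
  | .inl .grpG, .inl (.gam _) => True
  | .inl .dump, .inl (.gam _) => True
  | .inl (.gate L), .inr p => L.1 = p.1.1.1.1 ∧ p.2 = decide (Even s)
  | .inl .dump, .inr p => p.2 = !decide (Even s)
  | .inr p, .inl (.lv g) => p.2 = true ∧ g = p.1
  | _, _ => False

def hVar : UH k s r B → Prop
  | .inl (.frc _) => True
  | .inl (.gam _) => True
  | .inl (.lv _) => True
  | .inr p => p.2 = false
  | _ => False

def hAnd : UH k s r B → Prop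
  | .inl (.gate L) => Even L.1.length
  | _ => False

def hOr : UH k s r B → Prop
  | .inl (.gate L) => ¬ Even L.1.length
  | .inl .grpG => True
  | .inl .dump => True
  | _ => False

def hNot : UH k s r B → Prop
  | .inr p => p.2 = true
  | _ => False

def hOut : UH k s r B → Prop
  | .inl (.gate L) => L.1 = []
  | _ => False

/-- the base circuit -/
def srcH (k s r : ℕ) (B : Type) [Fintype B] : Circ (UH k s r B) where
  isVar := hVar
  isAnd := hAnd
  isOr := hOr
  isNot := hNot
  isOut := hOut
  wire := wrH

/-- rank -/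
def rkH : UH k s r B → ℕ
  | .inl (.gate L) => L.1.length
  | .inl .grpG => s + 1
  | .inl .dump => s + 1
  | .inr _ => s + 2
  | .inl (.frc _) => s + 3
  | .inl (.gam _) => s + 3
  | .inl (.lv _) => s + 3

theorem wrH_rk {g h : UH k s r B} (hw : wrH g h) : rkH g < rkH h := by
  rcases g with (g | g | g | g | L | g) | ⟨p, c⟩ <;> rcases h with (h | h | h | h | L' | h) | ⟨p', c'⟩ <;>
    simp only [wrH, rkH] at hw ⊢
  case inl.gate.inl.frc =>
    rw [hw]
    simp
  case inl.gate.inl.gam =>
    have := L.2.2
    omega
  case inl.gate.inl.grpG =>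
    rw [hw]
    simp
  case inl.gate.inl.dump =>
    rw [hw]
    simp
  case inl.gate.inl.gate =>
    obtain ⟨p, hp⟩ := hw
    rw [hp]
    simp
  case inl.gate.inr =>
    have := L.2.2
    omega
  all_goals omega

/-- the output -/
def rootH : UH k s r B := .inl (.gate ⟨[], trivial, Nat.zero_le _⟩)

theorem out_rootH {g : UH k s r B} (h : hOut g) : g = rootH := by
  rcases g with (g | g | g | g | L | g) | p <;> simp only [hOut] at h
  unfold rootH
  congr 2
  exact Subtype.ext h

theorem srcH_isCircuit : (srcH k s r B).IsCircuit where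
  kind := by
    intro g
    show (hVar g ∧ ¬ hAnd g ∧ ¬ hOr g ∧ ¬ hNot g) ∨ (¬ hVar g ∧ hAnd g ∧ ¬ hOr g ∧ ¬ hNot g) ∨
      (¬ hVar g ∧ ¬ hAnd g ∧ hOr g ∧ ¬ hNot g) ∨ (¬ hVar g ∧ ¬ hAnd g ∧ ¬ hOr g ∧ hNot g)
    rcases g with (g | g | g | g | L | g) | ⟨p, c⟩ <;> simp only [hVar, hAnd, hOr, hNot] <;>
      first
      | tauto
      | (cases c <;> simp)
  out := ⟨rootH, rfl, fun _ h => out_rootH h⟩
  var_in := by
    intro g h hv hw
    change hVar g at hv
    change wrH g h at hw
    rcases g with (g | g | g | g | L | g) | ⟨p, c⟩ <;> simp only [hVar] at hv <;>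
      rcases h with (h | h | h | h | L' | h) | ⟨p', c'⟩ <;> simp only [wrH] at hw
    rw [hv] at hw
    exact absurd hw.1 (by simp)
  not_in := by
    intro g hg
    change hNot g at hg
    rcases g with (g | g | g | g | L | g) | ⟨p, c⟩ <;> simp only [hNot] at hg
    subst hg
    refine ⟨.inl (.lv p), ⟨rfl, rfl⟩, ?_⟩
    intro h hw
    change wrH _ h at hw
    rcases h with (h | h | h | h | L' | h) | ⟨p', c'⟩ <;> simp only [wrH] at hw
    rw [hw.2]
  acyclic := by
    intro g hg
    have key : ∀ a b : UH k s r B, Relation.TransGen (srcH k s r B).wire a b → rkH a < rkH b := by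
      intro a b hab
      induction hab with
      | single h => exact wrH_rk h
      | tail _ h ih => exact ih.trans (wrH_rk h)
    exact absurd (key g g hg) (lt_irrefl _)

theorem srcH_once {h : UH k s r B} (hv : ¬ hVar h ∨ ∃ p, h = .inr p) {g g' : UH k s r B}
    (hw : wrH g h) (hw' : wrH g' h) : g = g' := by
  rcases h with (h | h | h | h | L' | h) | ⟨p', c'⟩ <;>
    rcases g with (g | g | g | g | L | g) | ⟨p, c⟩ <;> simp only [wrH] at hw <;>
    rcases g' with (g' | g' | g' | g' | L'' | g') | ⟨p'', c''⟩ <;> simp only [wrH] at hw'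
  all_goals try (simp [hVar] at hv; done)
  case inl.grpG.inl.gate.inl.gate =>
    have : L = L'' := Subtype.ext (hw.trans hw'.symm)
    rw [this]
  case inl.dump.inl.gate.inl.gate =>
    have : L = L'' := Subtype.ext (hw.trans hw'.symm)
    rw [this]
  case inl.gate.inl.gate.inl.gate =>
    obtain ⟨p, hp⟩ := hw
    obtain ⟨p', hp'⟩ := hw'
    rw [hp] at hp'
    simp only [List.cons.injEq] at hp'
    have : L = L'' := Subtype.ext hp'.2
    rw [this]
  case inr.inl.dump.inl.dump => rfl
  case inr.inl.dump.inl.gate =>
    rw [hw] at hw'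
    have := hw'.2
    cases h : decide (Even s) <;> rw [h] at this <;> simp at this
  case inr.inl.gate.inl.dump =>
    rw [hw'] at hw
    have := hw.2
    cases h : decide (Even s) <;> rw [h] at this <;> simp at this
  case inr.inl.gate.inl.gate =>
    have : L = L'' := Subtype.ext (hw.1.trans hw'.1.symm)
    rw [this]

theorem srcH_isFormula : (srcH k s r B).IsFormula where
  toIsCircuit := srcH_isCircuit
  used := by
    intro g
    rcases g with (i | γ | _ | _ | L | g) | ⟨p, c⟩
    · exact Or.inr ⟨rootH, rfl⟩
    · exact Or.inr ⟨.inl .grpG, trivial⟩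
    · exact Or.inr ⟨rootH, rfl⟩
    · exact Or.inr ⟨rootH, rfl⟩
    · obtain ⟨L, hL, hs⟩ := L
      cases L with
      | nil => exact Or.inl rfl
      | cons p L =>
        refine Or.inr ⟨.inl (.gate ⟨L, hL.1, ?_⟩), ⟨p, rfl⟩⟩
        rw [List.length_cons] at hs
        omega
    · exact Or.inr ⟨.inr (g, true), ⟨rfl, rfl⟩⟩
    · by_cases hc : c = decide (Even s)
      · exact Or.inr ⟨.inl (.gate ⟨p.1.1.1, p.1.1.2.1, p.1.1.2.2.le⟩), ⟨rfl, hc⟩⟩
      · refine Or.inr ⟨.inl .dump, ?_⟩
        show c = !decide (Even s)
        cases c <;> cases h : decide (Even s) <;> rw [h] at hc <;> simp at hc ⊢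
  once := by
    intro g p q hg hp hq
    exact srcH_once (Or.inl hg) hp hq

theorem litH (p : (Cx B s × Fin r) × Bool) : (srcH k s r B).IsLit (.inr p) := by
  obtain ⟨p, c⟩ := p
  cases c
  · exact Or.inl rfl
  · refine Or.inr ⟨rfl, ?_⟩
    intro h hw
    change wrH _ h at hw
    rcases h with (h | h | h | h | L' | h) | ⟨p', c'⟩ <;> simp only [wrH] at hw
    trivial

theorem srcH_ok : SwapOK (srcH k s r B) where
  form := srcH_isFormula
  rk := ⟨rkH, fun _ _ h => wrH_rk h, fun _ _ => rfl⟩
  out _ h := h
  once p g h hw hw' := srcH_once (Or.inr ⟨p, rfl⟩) hw hw'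
  lit := litH
  notc g p hg hw := by
    change hNot g at hg
    change wrH g _ at hw
    rcases g with (g | g | g | g | L | g) | ⟨p, c⟩ <;> simp only [hNot] at hg <;>
      simp only [wrH] at hw

theorem srcH_nob : NoB (srcH k s r B) where
  nb g p h1 h2 := by
    change wrH g _ at h1
    change wrH g _ at h2
    rcases g with (g | g | g | g | L | g) | ⟨p, c⟩ <;> simp only [wrH] at h1 h2
    · cases h : decide (Even s) <;> rw [h] at h1 h2 <;> simp at h1 h2
    · rw [← h1.2] at h2
      simp at h2

theorem even_cons {α : Type} {p : α} {L : List α} :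
    decide (Even (p :: L).length) = !decide (Even L.length) := by
  have h1 : Even (p :: L).length ↔ ¬ Even L.length := by
    rw [List.length_cons, Nat.even_add_one]
  by_cases h : Even L.length
  · rw [decide_eq_false (fun h2 => h1.1 h2 h), decide_eq_true h]
    rfl
  · rw [decide_eq_true (h1.2 h), decide_eq_false h]
    rfl

theorem gate_level (hs : 1 ≤ s) : ∀ (r' : ℕ) (L : {L : Hist B // okL L ∧ L.length ≤ s}),
    L.1.length + r' = s →
    (srcH k s r B).InLevel 1 (decide (Even L.1.length)) (r' + 1) (.inl (.gate L)) := by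
  intro r'
  induction r' with
  | zero =>
    intro L hL
    refine Or.inr ⟨?_, ?_⟩
    · by_cases h : Even L.1.length
      · simp only [h, decide_true]
        exact h
      · simp only [h, decide_false]
        exact h
    · intro x hw
      change wrH _ x at hw
      apply lit_level _ le_rfl
      rcases x with (i | γ | _ | _ | L' | g) | ⟨p, c⟩ <;> simp only [wrH] at hw
      · exact Or.inl trivial
      · exact Or.inl trivial
      · rw [hw] at hL
        simp only [List.length_nil, Nat.add_zero] at hL
        omega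
      · rw [hw] at hL
        simp only [List.length_nil, Nat.add_zero] at hL
        omega
      · obtain ⟨p, hp⟩ := hw
        have h1 := L'.2.2
        rw [hp, List.length_cons] at h1
        omega
      · exact litH _
  | succ r' ih =>
    intro L hL
    refine Or.inr ⟨?_, ?_⟩
    · by_cases h : Even L.1.length
      · simp only [h, decide_true]
        exact h
      · simp only [h, decide_false]
        exact h
    · intro x hw
      change wrH _ x at hw
      rcases x with (i | γ | _ | _ | L' | g) | ⟨p, c⟩ <;> simp only [wrH] at hw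
      · exact lit_level (Or.inl trivial) le_rfl _ _
      · exact lit_level (Or.inl trivial) le_rfl _ _
      · have h0 : (!decide (Even L.1.length)) = false := by rw [hw]; simp
        rw [h0]
        refine Or.inr ⟨trivial, ?_⟩
        intro y hy
        change wrH _ y at hy
        rcases y with (i | γ | _ | _ | L' | g) | ⟨p, c⟩ <;> simp only [wrH] at hy
        exact lit_level (Or.inl trivial) le_rfl _ _
      · have h0 : (!decide (Even L.1.length)) = false := by rw [hw]; simp
        rw [h0]
        refine Or.inr ⟨trivial, ?_⟩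
        intro y hy
        change wrH _ y at hy
        rcases y with (i | γ | _ | _ | L' | g) | ⟨p, c⟩ <;> simp only [wrH] at hy
        · exact lit_level (Or.inl trivial) le_rfl _ _
        · exact lit_level (litH _) le_rfl _ _
      · obtain ⟨p, hp⟩ := hw
        have h1 := ih L' (by rw [hp, List.length_cons]; omega)
        rw [hp, even_cons] at h1
        exact h1
      · exact lit_level (litH _) le_rfl _ _

theorem srcH_level (hs : 1 ≤ s) (g : UH k s r B) (hg : (srcH k s r B).isOut g) :
    (srcH k s r B).InLevel 1 true (s + 1) g := by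
  rw [out_rootH hg]
  have := gate_level (k := k) (r := r) hs s (⟨[], trivial, Nat.zero_le _⟩ :
    {L : Hist B // okL L ∧ L.length ≤ s}) (by simp)
  have h1 : decide (Even (([] : Hist B)).length) = true := by simp
  exact (congrArg (fun b => (srcH k s r B).InLevel 1 b (s + 1) rootH) h1).mp this

end src

end Pool.Agent.WSatQ97
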