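import Pool.Agent.WSatQ97.Swap
import Pool.Agent.WSatChain.Circuit

/-! The source formulas of the first link. -/

namespace Pool.Agent.WSatQ97

open Finset Pool.Agent.WSatChain Pool.Agent.WSatAC0 Pool.Agent.ParityAC

/-- the pairs -/
abbrev Gx (A G r : ℕ) : Type := (Fin A × Fin G) × Fin r

/-- the nodes that are not exchanged -/
inductive N1 (k A G r : ℕ) : Type
  | root
  | frc (i : Fin k)
  | va (a : Fin A)
  | wv
  | nw
  | bq (g : Gx A G r)
  | pq (g : Gx A G r)

section src

variable {k A G r : ℕ}

/-- all nodes -/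
abbrev UL (k A G r : ℕ) : Type := N1 k A G r ⊕ (Gx A G r × Bool)

/-- the wires -/
def wrL : UL k A G r → UL k A G r → Prop
  | .inl .root, .inl (.frc _) => True
  | .inl .root, .inl .nw => True
  | .inl .root, .inl (.bq _) => True
  | .inl .root, .inr p => p.2 = false
  | .inl (.bq g), .inl (.pq g') => g' = g
  | .inl (.bq g), .inr p => p = (g, true)
  | .inl (.pq _), .inl .wv => True
  | .inl .nw, .inl .wv => True
  | .inr p, .inl .wv => p.2 = false
  | .inr p, .inl (.va a) => p.2 = true ∧ a = p.1.1.1
  | _, _ => False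

def lVar : UL k A G r → Prop
  | .inl (.frc _) => True
  | .inl (.va _) => True
  | .inl .wv => True
  | _ => False

def lAnd : UL k A G r → Prop
  | .inl .root => True
  | _ => False

def lOr : UL k A G r → Prop
  | .inl (.bq _) => True
  | _ => False

def lNot : UL k A G r → Prop
  | .inl .nw => True
  | .inl (.pq _) => True
  | .inr _ => True
  | _ => False

def lOut : UL k A G r → Prop
  | .inl .root => True
  | _ => False

/-- the base circuit -/
def srcL (k A G r : ℕ) : Circ (UL k A G r) where
  isVar := lVar
  isAnd := lAnd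
  isOr := lOr
  isNot := lNot
  isOut := lOut
  wire := wrL

/-- rank -/
def rkL : UL k A G r → ℕ
  | .inl .root => 0
  | .inl (.bq _) => 1
  | .inl (.pq _) => 2
  | .inl .nw => 2
  | .inr _ => 2
  | .inl (.frc _) => 3
  | .inl (.va _) => 3
  | .inl .wv => 3

theorem wrL_rk {g h : UL k A G r} (hw : wrL g h) : rkL g < rkL h := by
  rcases g with (_ | g | g | _ | _ | g | g) | p <;>
    rcases h with (_ | h | h | _ | _ | h | h) | p' <;>
    simp only [wrL, rkL] at hw ⊢ <;> omega

theorem out_rootL {g : UL k A G r} (h : lOut g) : g = .inl .root := by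
  rcases g with (_ | g | g | _ | _ | g | g) | p <;> simp only [lOut] at h
  rfl

theorem srcL_isCircuit : (srcL k A G r).IsCircuit where
  kind := by
    intro g
    show (lVar g ∧ ¬ lAnd g ∧ ¬ lOr g ∧ ¬ lNot g) ∨ (¬ lVar g ∧ lAnd g ∧ ¬ lOr g ∧ ¬ lNot g) ∨
      (¬ lVar g ∧ ¬ lAnd g ∧ lOr g ∧ ¬ lNot g) ∨ (¬ lVar g ∧ ¬ lAnd g ∧ ¬ lOr g ∧ lNot g)
    rcases g with (_ | g | g | _ | _ | g | g) | p <;> simp only [lVar, lAnd, lOr, lNot] <;> tauto
  out := ⟨.inl .root, trivial, fun _ h => out_rootL h⟩
  var_in := by
    intro g h hv hw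
    change lVar g at hv
    change wrL g h at hw
    rcases g with (_ | g | g | _ | _ | g | g) | p <;> simp only [lVar] at hv <;>
      rcases h with (_ | h | h | _ | _ | h | h) | p' <;> simp only [wrL] at hw
  not_in := by
    intro g hg
    change lNot g at hg
    rcases g with (_ | g | g | _ | _ | g | g) | ⟨p, c⟩ <;> simp only [lNot] at hg
    · refine ⟨.inl .wv, trivial, ?_⟩
      intro h hw
      change wrL _ h at hw
      rcases h with (_ | h | h | _ | _ | h | h) | p' <;> simp only [wrL] at hw
      rfl
    · refine ⟨.inl .wv, trivial, ?_⟩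
      intro h hw
      change wrL _ h at hw
      rcases h with (_ | h | h | _ | _ | h | h) | p' <;> simp only [wrL] at hw
      rfl
    · cases c
      · refine ⟨.inl .wv, rfl, ?_⟩
        intro h hw
        change wrL _ h at hw
        rcases h with (_ | h | h | _ | _ | h | h) | p' <;> simp only [wrL] at hw
        · exact absurd hw.1 (by simp)
        · rfl
      · refine ⟨.inl (.va p.1.1), ⟨rfl, rfl⟩, ?_⟩
        intro h hw
        change wrL _ h at hw
        rcases h with (_ | h | h | _ | _ | h | h) | p' <;> simp only [wrL] at hw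
        · rw [hw.2]
        · exact absurd hw (by simp)
  acyclic := by
    intro g hg
    have key : ∀ a b : UL k A G r, Relation.TransGen (srcL k A G r).wire a b → rkL a < rkL b := by
      intro a b hab
      induction hab with
      | single h => exact wrL_rk h
      | tail _ h ih => exact ih.trans (wrL_rk h)
    exact absurd (key g g hg) (lt_irrefl _)

theorem srcL_once {h : UL k A G r} (hv : ¬ lVar h) {g g' : UL k A G r}
    (hw : wrL g h) (hw' : wrL g' h) : g = g' := by
  rcases h with (_ | h | h | _ | _ | h | h) | ⟨p', c'⟩ <;>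
    rcases g with (_ | g | g | _ | _ | g | g) | p <;> simp only [wrL] at hw <;>
    rcases g' with (_ | g' | g' | _ | _ | g' | g') | p'' <;> simp only [wrL] at hw'
  all_goals try (simp [lVar] at hv; done)
  all_goals try rfl
  · rw [← hw, ← hw']
  · subst hw
    simp at hw'
  · subst hw'
    simp at hw
  · simp only [Prod.mk.injEq] at hw hw'
    rw [← hw.1, ← hw'.1]

theorem srcL_isFormula (hG : 1 ≤ G) (hr : 1 ≤ r) : (srcL k A G r).IsFormula where
  toIsCircuit := srcL_isCircuit
  used := by
    intro g
    rcases g with (_ | g | g | _ | _ | g | g) | ⟨p, c⟩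
    · exact Or.inl trivial
    · exact Or.inr ⟨.inl .root, trivial⟩
    · exact Or.inr ⟨.inr (((g, ⟨0, hG⟩), ⟨0, hr⟩), true), ⟨rfl, rfl⟩⟩
    · exact Or.inr ⟨.inl .nw, trivial⟩
    · exact Or.inr ⟨.inl .root, trivial⟩
    · exact Or.inr ⟨.inl .root, trivial⟩
    · exact Or.inr ⟨.inl (.bq g), rfl⟩
    · cases c
      · exact Or.inr ⟨.inl .root, rfl⟩
      · exact Or.inr ⟨.inl (.bq p), rfl⟩
  once := by
    intro g p q hg hp hq
    exact srcL_once hg hp hq

theorem litL {g : UL k A G r} (hg : lVar g ∨ lNot g) : (srcL k A G r).IsLit g := by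
  rcases hg with hg | hg
  · exact Or.inl hg
  · refine Or.inr ⟨hg, ?_⟩
    intro h hw
    change wrL _ h at hw
    rcases g with (_ | g | g | _ | _ | g | g) | ⟨p, c⟩ <;> simp only [lNot] at hg <;>
      rcases h with (_ | h | h | _ | _ | h | h) | p' <;> simp only [wrL] at hw <;> trivial

theorem srcL_ok (hG : 1 ≤ G) (hr : 1 ≤ r) : SwapOK (srcL k A G r) where
  form := srcL_isFormula hG hr
  rk := ⟨rkL, fun _ _ h => wrL_rk h, fun _ _ => rfl⟩
  out _ h := h
  once p _ _ hw hw' := srcL_once (h := .inr p) (fun h => h) hw hw'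
  lit _ := litL (Or.inr trivial)
  notc g p hg hw := by
    change lNot g at hg
    change wrL g _ at hw
    rcases g with (_ | g | g | _ | _ | g | g) | p <;> simp only [lNot] at hg <;>
      simp only [wrL] at hw

theorem srcL_nob : NoB (srcL k A G r) where
  nb g p h1 h2 := by
    change wrL g _ at h1
    change wrL g _ at h2
    rcases g with (_ | g | g | _ | _ | g | g) | ⟨p, c⟩ <;> simp only [wrL] at h1 h2
    · simp at h1
    · simp at h2

theorem srcL_level (g : UL k A G r) (hg : (srcL k A G r).isOut g) :
    (srcL k A G r).InLevel 2 true 1 g := by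
  rw [out_rootL hg]
  refine Or.inr ⟨trivial, ?_⟩
  intro h hw
  change wrL _ h at hw
  rcases h with (_ | h | h | _ | _ | h | h) | p' <;> simp only [wrL] at hw
  · exact Or.inl ⟨by norm_num, litL (Or.inl trivial)⟩
  · exact Or.inl ⟨by norm_num, litL (Or.inr trivial)⟩
  · refine Or.inr ⟨trivial, ?_, ?_⟩
    · intro y hy
      change wrL _ y at hy
      rcases y with (_ | y | y | _ | _ | y | y) | p' <;> simp only [wrL] at hy
      · exact litL (Or.inr trivial)
      · exact litL (Or.inr trivial)
    · let φ : {x // (srcL k A G r).wire (.inl (.bq h)) x} → Bool := fun x =>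
        match x.1 with
        | .inl _ => true
        | .inr _ => false
      have hφ : Function.Injective φ := by
        rintro ⟨x, hx⟩ ⟨y, hy⟩ hxy
        change wrL _ x at hx
        change wrL _ y at hy
        rcases x with (_ | x | x | _ | _ | x | x) | p <;> simp only [wrL] at hx <;>
          rcases y with (_ | y | y | _ | _ | y | y) | p' <;> simp only [wrL] at hy
        · simp only [hx, hy]
        · simp [φ] at hxy
        · simp [φ] at hxy
        · simp only [hx, hy]
      have h1 := Nat.card_le_card_of_injective φ hφ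
      simpa using h1
  · exact Or.inl ⟨by norm_num, litL (Or.inr trivial)⟩

/-- the nodes as a sum -/
def N1sum (k A G r : ℕ) : N1 k A G r ≃ (Fin k ⊕ Fin A) ⊕ (Fin 3 ⊕ (Gx A G r ⊕ Gx A G r)) where
  toFun x := match x with
    | .root => .inr (.inl 0)
    | .frc i => .inl (.inl i)
    | .va a => .inl (.inr a)
    | .wv => .inr (.inl 1)
    | .nw => .inr (.inl 2)
    | .bq g => .inr (.inr (.inl g))
    | .pq g => .inr (.inr (.inr g))
  invFun y := match y with
    | .inl (.inl i) => .frc i
    | .inl (.inr a) => .va a
    | .inr (.inl 0) => .root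
    | .inr (.inl 1) => .wv
    | .inr (.inl 2) => .nw
    | .inr (.inr (.inl g)) => .bq g
    | .inr (.inr (.inr g)) => .pq g
  left_inv x := by cases x <;> rfl
  right_inv y := by
    rcases y with (_ | _) | (i | _ | _)
    · rfl
    · rfl
    · fin_cases i <;> rfl
    · rfl
    · rfl

instance : Fintype (N1 k A G r) := Fintype.ofEquiv _ (N1sum k A G r).symm

theorem card_UL : Nat.card (UL k A G r) = k + A + (3 + 2 * (A * G * r)) + A * G * r * 2 := by
  rw [Nat.card_sum, Nat.card_congr (N1sum k A G r)]
  have h2 : Nat.card Bool = 2 := by simp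
  have h3 : ∀ n, Nat.card (Fin n) = n := fun n => by simp
  simp only [Nat.card_sum, Nat.card_prod, h2, h3]
  ring

theorem srcL_once' {h g g' : UL k A G r} (hg : ¬ lNot g) (hg' : ¬ lNot g')
    (hw : wrL g h) (hw' : wrL g' h) : g = g' := by
  by_cases hv : lVar h
  · rcases h with (_ | h | h | _ | _ | h | h) | ⟨p', c'⟩ <;> simp only [lVar] at hv <;>
      rcases g with (_ | g | g | _ | _ | g | g) | p <;> simp only [wrL] at hw <;>
      rcases g' with (_ | g' | g' | _ | _ | g' | g') | p'' <;> simp only [wrL] at hw'
    all_goals first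
      | rfl
      | exact absurd trivial hg
  · exact srcL_once hv hw hw'

/-- the number of wires -/
theorem wires_L :
    Nat.card {p : UL k A G r × UL k A G r // (srcL k A G r).wire p.1 p.2} ≤
      2 * Nat.card (UL k A G r) := by
  classical
  let φ : {p : UL k A G r × UL k A G r // (srcL k A G r).wire p.1 p.2} →
      UL k A G r ⊕ UL k A G r := fun p =>
    if lNot p.1.1 then .inr p.1.1 else .inl p.1.2
  have hφ : Function.Injective φ := by
    rintro ⟨⟨g, h⟩, hw⟩ ⟨⟨g', h'⟩, hw'⟩ heq
    by_cases h1 : lNot g
    · by_cases h2 : lNot g'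
      · simp only [φ, if_pos h1, if_pos h2, Sum.inr.injEq] at heq
        subst heq
        obtain ⟨z, _, hz⟩ := (srcL_isCircuit (k := k) (A := A) (G := G) (r := r)).not_in g h1
        have h3 : h = h' := by rw [hz h hw, hz h' hw']
        subst h3
        rfl
      · simp only [φ, if_pos h1, if_neg h2, reduceCtorEq] at heq
    · by_cases h2 : lNot g'
      · simp only [φ, if_neg h1, if_pos h2, reduceCtorEq] at heq
      · simp only [φ, if_neg h1, if_neg h2, Sum.inl.injEq] at heq
        subst heq
        have h3 : g = g' := srcL_once' h1 h2 hw hw'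
        subst h3
        rfl
  have h1 := Nat.card_le_card_of_injective φ hφ
  rw [Nat.card_sum] at h1
  omega

variable {w : Gx A G r → Bool} {val : UL k A G r → Prop}

/-- exactly the forced variables and the variable `a` are true -/
structure SelL (val : UL k A G r → Prop) (a : Fin A) : Prop where
  frc : ∀ i, val (.inl (.frc i))
  va : ∀ a', val (.inl (.va a')) ↔ a' = a
  wv : ¬ val (.inl .wv)

/-- the evaluation of the circuit with exchanged inputs -/
abbrev EvL (w : Gx A G r → Bool) (val : UL k A G r → Prop) : Prop :=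
  (sw (srcL k A G r) w).IsEval val

theorem not0_val (hv : EvL w val) (g : Gx A G r) :
    val (.inr (g, false)) ↔ ¬ val (.inl .wv) := by
  rw [hv.not (.inr (g, false)) trivial]
  constructor
  · intro h
    exact h (.inl .wv) rfl
  · intro h x hw
    change wrL _ (tw w x) at hw
    rcases x with (_ | x | x | _ | _ | x | x) | p <;> simp only [tw, wrL] at hw
    · exact absurd hw.1 (by simp)
    · exact h

theorem not1_val (hv : EvL w val) (g : Gx A G r) :
    val (.inr (g, true)) ↔ ¬ val (.inl (.va g.1.1)) := by
  rw [hv.not (.inr (g, true)) trivial]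
  constructor
  · intro h
    exact h (.inl (.va g.1.1)) ⟨rfl, rfl⟩
  · intro h x hw
    change wrL _ (tw w x) at hw
    rcases x with (_ | x | x | _ | _ | x | x) | p <;> simp only [tw, wrL] at hw
    · rw [hw.2]
      exact h
    · exact absurd hw (by simp)

theorem nw_val (hv : EvL w val) : val (.inl .nw) ↔ ¬ val (.inl .wv) := by
  rw [hv.not (.inl .nw) trivial]
  constructor
  · intro h
    exact h (.inl .wv) trivial
  · intro h x hw
    change wrL _ (tw w x) at hw
    rcases x with (_ | x | x | _ | _ | x | x) | p <;> simp only [tw, wrL] at hw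
    exact h

theorem pq_val (hv : EvL w val) (g : Gx A G r) : val (.inl (.pq g)) ↔ ¬ val (.inl .wv) := by
  rw [hv.not (.inl (.pq g)) trivial]
  constructor
  · intro h
    exact h (.inl .wv) trivial
  · intro h x hw
    change wrL _ (tw w x) at hw
    rcases x with (_ | x | x | _ | _ | x | x) | p <;> simp only [tw, wrL] at hw
    exact h

/-- the value of the output -/
theorem root_valL (hv : EvL w val) : val (.inl .root) ↔
    (∀ i, val (.inl (.frc i))) ∧ ¬ val (.inl .wv) ∧ ∀ g, w g = true → ¬ val (.inl (.va g.1.1)) := by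
  rw [hv.and (.inl .root) trivial]
  constructor
  · intro h
    have hwv : ¬ val (.inl .wv) := (nw_val hv).1 (h (.inl .nw) trivial)
    refine ⟨fun i => h (.inl (.frc i)) trivial, hwv, ?_⟩
    intro g hg
    rw [← not1_val hv]
    apply h
    show xor true (w g) = false
    rw [hg]
    rfl
  · rintro ⟨h1, h2, h3⟩ x hw
    change wrL _ (tw w x) at hw
    rcases x with (_ | x | x | _ | _ | x | x) | ⟨p, c⟩ <;> simp only [tw, wrL] at hw
    · exact h1 x
    · exact (nw_val hv).2 h2
    · rw [hv.or (.inl (.bq x)) trivial]
      exact ⟨.inl (.pq x), rfl, (pq_val hv x).2 h2⟩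
    · cases c
      · exact (not0_val hv p).2 h2
      · refine (not1_val hv p).2 (h3 p ?_)
        cases hp : w p
        · rw [hp] at hw
          simp at hw
        · rfl

/-- **weighted satisfiability of the source** -/
theorem srcL_wsat (hG : 1 ≤ G) (hr : 1 ≤ r) : (sw (srcL k A G r) w).WSat (k + 1) ↔
    ∃ a : Fin A, ∀ (g : Fin G) (i : Fin r), w ((a, g), i) = false := by
  constructor
  · rintro ⟨val, hv, hout, hcard⟩
    obtain ⟨h1, h2, h3⟩ := (root_valL hv).1 (hout (.inl .root) trivial)
    have hex : ∃ a, val (.inl (.va a)) := by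
      by_contra hcon
      push Not at hcon
      let φ : {g // (sw (srcL k A G r) w).isVar g ∧ val g} → Fin k := fun x =>
        match h : x.1 with
        | .inl (.frc i) => i
        | .inl (.va a) => absurd (h ▸ x.2.2) (hcon a)
        | .inl .wv => absurd (h ▸ x.2.2) h2
        | .inl .root => absurd (h ▸ x.2.1 : lVar (.inl .root : UL k A G r)) (fun h => h)
        | .inl .nw => absurd (h ▸ x.2.1 : lVar (.inl .nw : UL k A G r)) (fun h => h)
        | .inl (.bq g) => absurd (h ▸ x.2.1 : lVar (.inl (.bq g) : UL k A G r)) (fun h => h)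
        | .inl (.pq g) => absurd (h ▸ x.2.1 : lVar (.inl (.pq g) : UL k A G r)) (fun h => h)
        | .inr p => absurd (h ▸ x.2.1 : lVar (.inr p : UL k A G r)) (fun h => h)
      have hφ : Function.Injective φ := by
        rintro ⟨x, hx, hvx⟩ ⟨y, hy, hvy⟩ hxy
        change lVar x at hx
        change lVar y at hy
        rcases x with (_ | x | x | _ | _ | x | x) | p <;> simp only [lVar] at hx
        · rcases y with (_ | y | y | _ | _ | y | y) | p' <;> simp only [lVar] at hy
          · simp only [φ] at hxy
            subst hxy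
            rfl
          · exact absurd hvy (hcon y)
          · exact absurd hvy h2
        · exact absurd hvx (hcon x)
        · exact absurd hvx h2
      have h4 := Nat.card_le_card_of_injective φ hφ
      rw [hcard, Nat.card_eq_fintype_card, Fintype.card_fin] at h4
      omega
    obtain ⟨a, ha⟩ := hex
    refine ⟨a, ?_⟩
    intro g i
    by_contra hcon
    rw [Bool.not_eq_false] at hcon
    exact h3 _ hcon ha
  · rintro ⟨a, ha⟩
    obtain ⟨val, hv, hvar⟩ := eval_exists (sw_formula (srcL_ok hG hr) w).toIsCircuit
      (fun e : UL k A G r => (∃ i, e = .inl (.frc i)) ∨ e = .inl (.va a))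
    have b1 : ∀ i, val (.inl (.frc i)) := fun i =>
      (hvar (.inl (.frc i)) trivial).2 (Or.inl ⟨i, rfl⟩)
    have b2 : ∀ a', val (.inl (.va a')) ↔ a' = a := by
      intro a'
      refine (hvar (.inl (.va a')) trivial).trans ?_
      simp
    have b3 : ¬ val (.inl .wv) := by
      intro h
      have := (hvar (.inl .wv) trivial).1 h
      simp at this
    refine ⟨val, hv, ?_, ?_⟩
    · intro g hg
      rw [out_rootL hg, root_valL hv]
      refine ⟨b1, b3, ?_⟩
      intro g hg h
      rw [b2] at h
      have h2 := ha g.1.2 g.2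
      rw [← h, hg] at h2
      exact absurd h2 (by simp)
    · let φ : Option (Fin k) → {g // (sw (srcL k A G r) w).isVar g ∧ val g} := fun o =>
        match o with
        | none => ⟨.inl (.va a), trivial, (b2 a).2 rfl⟩
        | some i => ⟨.inl (.frc i), trivial, b1 i⟩
      have hφ : Function.Bijective φ := by
        constructor
        · intro o o' h
          have h2 : (φ o).1 = (φ o').1 := by rw [h]
          cases o <;> cases o' <;> simp only [φ, reduceCtorEq, Sum.inl.injEq, N1.frc.injEq] at h2
          · rfl
          · rw [h2]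
        · rintro ⟨x, hx, hvx⟩
          rcases (hvar x hx).1 hvx with ⟨i, rfl⟩ | rfl
          · exact ⟨some i, rfl⟩
          · exact ⟨none, rfl⟩
      rw [← Nat.card_congr (Equiv.ofBijective φ hφ), Nat.card_eq_fintype_card,
        Fintype.card_option, Fintype.card_fin]

end src

end Pool.Agent.WSatQ97
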