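import Pool.Agent.WSatQ97.Def
import Pool.Agent.WSatQ97.Count
import Pool.Agent.WSatAC0.Comp
import Pool.Agent.WSatChain.Forward

/-! Circuits in which pairs of nodes are exchanged as inputs. -/

namespace Pool.Agent.WSatQ97

open Finset Pool.Agent.WSatChain Pool.Agent.WSatAC0 Pool.Agent.ParityAC

section sw

variable {U0 Γ : Type}

/-- exchange the two nodes of every chosen pair -/
def tw (w : Γ → Bool) : U0 ⊕ (Γ × Bool) → U0 ⊕ (Γ × Bool)
  | .inl u => .inl u
  | .inr p => .inr (p.1, xor p.2 (w p.1))

theorem tw_tw (w : Γ → Bool) (u : U0 ⊕ (Γ × Bool)) : tw w (tw w u) = u := by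
  cases u with
  | inl u => rfl
  | inr p => simp [tw]

/-- the circuit with exchanged inputs -/
def sw (C : Circ (U0 ⊕ (Γ × Bool))) (w : Γ → Bool) : Circ (U0 ⊕ (Γ × Bool)) :=
  { C with wire := fun g h => C.wire g (tw w h) }

/-- the exchange as an equivalence -/
def twE (w : Γ → Bool) : (U0 ⊕ (Γ × Bool)) ≃ (U0 ⊕ (Γ × Bool)) where
  toFun := tw w
  invFun := tw w
  left_inv := tw_tw w
  right_inv := tw_tw w

/-- the conditions on the circuit -/
structure SwapOK (C : Circ (U0 ⊕ (Γ × Bool))) : Prop where
  form : C.IsFormula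
  rk : ∃ rk : U0 ⊕ (Γ × Bool) → ℕ, (∀ g h, C.wire g h → rk g < rk h) ∧
    ∀ p c, rk (Sum.inr (p, c)) = rk (Sum.inr (p, !c))
  out : ∀ p, ¬ C.isOut (Sum.inr p)
  once : ∀ p g h, C.wire g (Sum.inr p) → C.wire h (Sum.inr p) → g = h
  lit : ∀ p, C.IsLit (Sum.inr p)
  notc : ∀ g p, C.isNot g → ¬ C.wire g (Sum.inr p)

variable {C : Circ (U0 ⊕ (Γ × Bool))} {w : Γ → Bool}

theorem sw_wire {g h : U0 ⊕ (Γ × Bool)} : (sw C w).wire g h ↔ C.wire g (tw w h) := Iff.rfl

theorem sw_formula (H : SwapOK C) (w : Γ → Bool) : (sw C w).IsFormula where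
  kind := H.form.kind
  out := H.form.out
  var_in g h hg hw := H.form.var_in g _ hg hw
  not_in := by
    intro g hg
    obtain ⟨h, hw, hu⟩ := H.form.not_in g hg
    refine ⟨tw w h, ?_, ?_⟩
    · show C.wire g (tw w (tw w h))
      rw [tw_tw]
      exact hw
    · intro y hy
      have := hu _ hy
      rw [← this, tw_tw]
  acyclic := by
    obtain ⟨rk, h1, h2⟩ := H.rk
    have h3 : ∀ u, rk (tw w u) = rk u := by
      intro u
      cases u with
      | inl u => rfl
      | inr p =>
        obtain ⟨p, c⟩ := p
        show rk (Sum.inr (p, xor c (w p))) = rk (Sum.inr (p, c))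
        cases w p
        · simp
        · rw [h2 p c]
          simp
    have h4 : ∀ g h, (sw C w).wire g h → rk g < rk h := by
      intro g h hw
      have := h1 _ _ hw
      rwa [h3] at this
    intro g hg
    have key : ∀ a b, Relation.TransGen (sw C w).wire a b → rk a < rk b := by
      intro a b hab
      induction hab with
      | single h => exact h4 _ _ h
      | tail _ h ih => exact ih.trans (h4 _ _ h)
    exact absurd (key g g hg) (lt_irrefl _)
  used := by
    intro g
    cases g with
    | inl u => exact H.form.used (Sum.inl u)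
    | inr p =>
      rcases H.form.used (tw w (Sum.inr p)) with h | ⟨p', h⟩
      · exact absurd h (H.out _)
      · exact Or.inr ⟨p', h⟩
  once := by
    intro g p q hg hp hq
    cases g with
    | inl u => exact H.form.once _ _ _ hg hp hq
    | inr x => exact H.once _ _ _ hp hq

theorem sw_lit (H : SwapOK C) (w : Γ → Bool) {g : U0 ⊕ (Γ × Bool)} (h : C.IsLit g) :
    (sw C w).IsLit g := by
  rcases h with h | ⟨h, h'⟩
  · exact Or.inl h
  · refine Or.inr ⟨h, ?_⟩
    intro x hx
    cases x with
    | inl u => exact h' _ hx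
    | inr p => exact absurd hx (H.notc g _ h)

theorem lit_level {U : Type} {C : Circ U} {g : U} (h : C.IsLit g) {d : ℕ} (hd : 1 ≤ d) :
    ∀ (t : ℕ) (b : Bool), C.InLevel d b t g := by
  intro t
  induction t with
  | zero => intro b; exact Or.inl ⟨hd, h⟩
  | succ t ih => intro b; exact Or.inl (ih _)

theorem lit_tw (H : SwapOK C) (w : Γ → Bool) {g : U0 ⊕ (Γ × Bool)} (h : C.IsLit (tw w g)) :
    (sw C w).IsLit g := by
  cases g with
  | inl u => exact sw_lit H w h
  | inr p => exact sw_lit H w (H.lit p)

theorem sw_level (H : SwapOK C) (w : Γ → Bool) {d : ℕ} (hd : 1 ≤ d) :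
    ∀ (t : ℕ) (b : Bool) (g : U0 ⊕ (Γ × Bool)), C.InLevel d b t g → (sw C w).InLevel d b t g := by
  intro t
  induction t with
  | zero =>
    rintro b g (⟨h1, h2⟩ | ⟨h1, h2, h3⟩)
    · exact Or.inl ⟨h1, sw_lit H w h2⟩
    · refine Or.inr ⟨?_, ?_, ?_⟩
      · cases b <;> exact h1
      · intro h hw
        exact lit_tw H w (h2 _ hw)
      · refine le_trans (le_of_eq ?_) h3
        apply Nat.card_congr
        exact (twE w).subtypeEquiv fun h => Iff.rfl
  | succ t ih =>
    rintro b g (h1 | ⟨h1, h2⟩)
    · exact Or.inl (ih _ _ h1)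
    · refine Or.inr ⟨?_, ?_⟩
      · cases b <;> exact h1
      · intro h hw
        cases h with
        | inl u => exact ih _ _ (h2 _ hw)
        | inr p => exact lit_level (sw_lit H w (H.lit p)) hd t _

theorem sw_gamma (H : SwapOK C) (w : Γ → Bool) {t d : ℕ} (hd : 1 ≤ d)
    (h : ∀ g, C.isOut g → C.InLevel d true t g) : GAMMA t d _ (sw C w) :=
  ⟨sw_formula H w, fun g hg => sw_level H w hd t true g (h g hg)⟩

theorem sw_wires (w : Γ → Bool) :
    Nat.card {p : (U0 ⊕ (Γ × Bool)) × (U0 ⊕ (Γ × Bool)) // (sw C w).wire p.1 p.2} =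
      Nat.card {p : (U0 ⊕ (Γ × Bool)) × (U0 ⊕ (Γ × Bool)) // C.wire p.1 p.2} := by
  apply Nat.card_congr
  exact ((Equiv.refl _).prodCongr (twE w)).subtypeEquiv fun p => Iff.rfl

end sw

section mp

variable {U : Type} {n : ℕ}

/-- a circuit on the numbers -/
def mp (e : U ≃ Fin n) (C : Circ U) : Circ (Fin n) where
  isVar g := C.isVar (e.symm g)
  isAnd g := C.isAnd (e.symm g)
  isOr g := C.isOr (e.symm g)
  isNot g := C.isNot (e.symm g)
  isOut g := C.isOut (e.symm g)
  wire g h := C.wire (e.symm g) (e.symm h)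

theorem mp_iso (e : U ≃ Fin n) (C : Circ U) : CIso C (mp e C) e where
  var g := by simp [mp]
  and g := by simp [mp]
  or g := by simp [mp]
  not g := by simp [mp]
  out g := by simp [mp]
  wire g h := by simp [mp]

theorem mp_wires (e : U ≃ Fin n) (C : Circ U) :
    Nat.card {p : Fin n × Fin n // (mp e C).wire p.1 p.2} =
      Nat.card {p : U × U // C.wire p.1 p.2} := by
  apply Nat.card_congr
  exact (e.symm.prodCongr e.symm).subtypeEquiv fun p => Iff.rfl

theorem mp_sparse {A : CClass} (hA : IsoInv A) (e : U ≃ Fin n) {C : Circ U} (h : Sparse A _ C) :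
    Sparse A _ (mp e C) := by
  refine ⟨hA _ _ _ _ e (mp_iso e C) h.1, ?_⟩
  rw [mp_wires, ← Nat.card_congr e]
  exact h.2

end mp

section lists

variable {U0 Γ : Type} [Fintype U0] [Fintype Γ] {n : ℕ}

/-- without the second component -/
def pr : U0 ⊕ (Γ × Bool) → U0 ⊕ Γ
  | .inl u => .inl u
  | .inr p => .inr p.1

/-- the two nodes of a pair have consecutive numbers -/
structure Cns (e : (U0 ⊕ (Γ × Bool)) ≃ Fin n) : Prop where
  lt : ∀ (w : Γ → Bool) x y, pr x ≠ pr y → e x < e y → e (tw w x) < e (tw w y)

/-- no node uses both nodes of a pair -/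
structure NoB (C : Circ (U0 ⊕ (Γ × Bool))) : Prop where
  nb : ∀ g p, C.wire g (.inr (p, true)) → C.wire g (.inr (p, false)) → False

omit [Fintype U0] [Fintype Γ] in
theorem pr_eq {x y : U0 ⊕ (Γ × Bool)} (h : pr x = pr y) : x = y ∨
    ∃ p, (x = .inr (p, true) ∧ y = .inr (p, false)) ∨
      (x = .inr (p, false) ∧ y = .inr (p, true)) := by
  rcases x with x | ⟨x, c⟩ <;> rcases y with y | ⟨y, c'⟩ <;> simp only [pr, reduceCtorEq,
    Sum.inl.injEq, Sum.inr.injEq] at h
  · exact Or.inl (by rw [h])
  · subst h
    cases c <;> cases c'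
    · exact Or.inl rfl
    · exact Or.inr ⟨x, Or.inr ⟨rfl, rfl⟩⟩
    · exact Or.inr ⟨x, Or.inl ⟨rfl, rfl⟩⟩
    · exact Or.inl rfl

open Classical in
/-- the lists of the base circuit -/
noncomputable def L0 (e : (U0 ⊕ (Γ × Bool)) ≃ Fin n) (C : Circ (U0 ⊕ (Γ × Bool))) (d : Bool)
    (u : U0 ⊕ (Γ × Bool)) : List (Fin n) :=
  (univ.filter fun h => if d then C.wire u (e.symm h) else C.wire (e.symm h) u).sort
    (fun a b => a ≤ b)

omit [Fintype U0] [Fintype Γ] in
theorem nbrs_false (e : (U0 ⊕ (Γ × Bool)) ≃ Fin n) (C : Circ (U0 ⊕ (Γ × Bool))) (w : Γ → Bool)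
    (g : Fin n) : nbrs (mp e (sw C w)) false g = L0 e C false (tw w (e.symm g)) := by
  unfold nbrs L0
  rfl

omit [Fintype U0] [Fintype Γ] in
theorem nbrs_true {e : (U0 ⊕ (Γ × Bool)) ≃ Fin n} (he : Cns e) {C : Circ (U0 ⊕ (Γ × Bool))}
    (hC : NoB C) (w : Γ → Bool) (g : Fin n) : nbrs (mp e (sw C w)) true g =
      (L0 e C true (e.symm g)).map fun h => e (tw w (e.symm h)) := by
  classical
  let τ : Fin n → Fin n := fun h => e (tw w (e.symm h))
  have hτ : Function.Injective τ := by
    intro a b hab
    have h1 := e.injective hab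
    have h2 := congrArg (tw w) h1
    rw [tw_tw, tw_tw] at h2
    exact e.symm.injective h2
  have hττ : ∀ h, τ (τ h) = h := by
    intro h
    simp only [τ, e.symm_apply_apply, tw_tw, e.apply_symm_apply]
  have hset : (univ.filter fun h => if true = true then (mp e (sw C w)).wire g h
      else (mp e (sw C w)).wire h g) =
      (univ.filter fun h => if true = true then C.wire (e.symm g) (e.symm h)
        else C.wire (e.symm h) (e.symm g)).map ⟨τ, hτ⟩ := by
    ext h
    simp only [Finset.mem_filter, Finset.mem_univ, true_and, if_true, Finset.mem_map,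
      Function.Embedding.coeFn_mk]
    constructor
    · intro hw
      refine ⟨τ h, ?_, hττ h⟩
      show C.wire (e.symm g) (e.symm (e (tw w (e.symm h))))
      rw [e.symm_apply_apply]
      exact hw
    · rintro ⟨x, hx, rfl⟩
      show C.wire (e.symm g) (tw w (e.symm (e (tw w (e.symm x)))))
      rw [e.symm_apply_apply, tw_tw]
      exact hx
  unfold nbrs L0
  rw [hset]
  symm
  refine Finset.map_sort (⟨τ, hτ⟩ : Fin n ↪ Fin n) _ _ _ ?_
  intro a ha b hb
  simp only [Finset.mem_filter, Finset.mem_univ, true_and, if_true] at ha hb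
  have key : ∀ a b : Fin n, C.wire (e.symm g) (e.symm a) → C.wire (e.symm g) (e.symm b) →
      a < b → τ a < τ b := by
    intro a b ha hb hab
    apply he.lt
    · intro h
      rcases pr_eq h with h | ⟨p, h | h⟩
      · exact absurd (e.symm.injective h) hab.ne
      · rw [h.1] at ha
        rw [h.2] at hb
        exact hC.nb _ _ ha hb
      · rw [h.1] at ha
        rw [h.2] at hb
        exact hC.nb _ _ hb ha
    · rw [e.apply_symm_apply, e.apply_symm_apply]
      exact hab
  show a ≤ b ↔ τ a ≤ τ b
  constructor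
  · intro hab
    rcases eq_or_lt_of_le hab with rfl | hab
    · exact le_rfl
    · exact (key a b ha hb hab).le
  · intro hab
    by_contra hcon
    push Not at hcon
    exact absurd (key b a hb ha hcon) (not_lt.2 hab)

/-- the answers on the circuit with exchanged inputs -/
noncomputable def ans (e : (U0 ⊕ (Γ × Bool)) ≃ Fin n) (C : Circ (U0 ⊕ (Γ × Bool))) (w : Γ → Bool) :
    Probe n → Bool := answers (mp e (sw C w))

/-- depends on one pair -/
def Loc (g : (Γ → Bool) → Bool) : Prop := ∃ p, ∀ w w', w p = w' p → g w = g w'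

omit [Fintype Γ] in
theorem Loc.const [Nonempty Γ] (b : Bool) : Loc (Γ := Γ) (fun _ => b) :=
  ⟨Classical.arbitrary Γ, fun _ _ _ => rfl⟩

omit [Fintype U0] [Fintype Γ] in
theorem Loc.tw [Nonempty Γ] (G : U0 ⊕ (Γ × Bool) → Bool) (u : U0 ⊕ (Γ × Bool)) :
    Loc (fun w => G (tw w u)) := by
  cases u with
  | inl u => exact ⟨Classical.arbitrary Γ, fun _ _ _ => rfl⟩
  | inr p =>
    refine ⟨p.1, ?_⟩
    intro w w' h
    simp only [Pool.Agent.WSatQ97.tw, h]

omit [Fintype U0] [Fintype Γ] in
theorem ans_loc [Nonempty Γ] {e : (U0 ⊕ (Γ × Bool)) ≃ Fin n} (he : Cns e)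
    {C : Circ (U0 ⊕ (Γ × Bool))} (hC : NoB C) (v : Probe n) : Loc (fun w => ans e C w v) := by
  classical
  cases v with
  | bit b =>
    cases b with
    | wire g h => exact Loc.tw (fun u => decide (C.wire (e.symm g) u)) (e.symm h)
    | _ => exact ⟨Classical.arbitrary Γ, fun _ _ _ => rfl⟩
  | more d g i =>
    cases d with
    | false =>
      have h1 : (fun w => ans e C w (.more false g i)) =
          fun w => decide (i < (L0 e C false (tw w (e.symm g))).length) := by
        funext w
        show decide (i < (nbrs (mp e (sw C w)) false g).length) = _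
        rw [nbrs_false]
      rw [h1]
      exact Loc.tw (fun u => decide (i < (L0 e C false u).length)) (e.symm g)
    | true =>
      have h1 : (fun w => ans e C w (.more true g i)) =
          fun _ => decide (i < (L0 e C true (e.symm g)).length) := by
        funext w
        show decide (i < (nbrs (mp e (sw C w)) true g).length) = _
        rw [nbrs_true he hC, List.length_map]
      rw [h1]
      exact Loc.const _
  | name d g i l =>
    cases d with
    | false =>
      have h1 : (fun w => ans e C w (.name false g i l)) =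
          fun w => ((L0 e C false (tw w (e.symm g)))[i]?).any fun h => h.1.testBit l := by
        funext w
        show ((nbrs (mp e (sw C w)) false g)[i]?).any _ = _
        rw [nbrs_false]
      rw [h1]
      exact Loc.tw (fun u => ((L0 e C false u)[i]?).any fun h => h.1.testBit l) (e.symm g)
    | true =>
      have h1 : (fun w => ans e C w (.name true g i l)) =
          fun w => ((L0 e C true (e.symm g))[i]?).any
            fun h => (e (tw w (e.symm h))).1.testBit l := by
        funext w
        show ((nbrs (mp e (sw C w)) true g)[i]?).any _ = _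
        rw [nbrs_true he hC, List.getElem?_map]
        cases (L0 e C true (e.symm g))[i]? <;> rfl
      rw [h1]
      cases (L0 e C true (e.symm g))[i]? with
      | none => exact Loc.const _
      | some u => exact Loc.tw (fun x => (e x).1.testBit l) (e.symm u)

/-- the questions become questions about pairs -/
noncomputable def push {V : Type} (γ : V → Γ) (X : (Γ → Bool) → V → Bool) : DT V → DT Γ
  | .leaf b => .leaf b
  | .node v t0 t1 => .node (γ v) (if X (fun _ => false) v then push γ X t1 else push γ X t0)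
      (if X (fun _ => true) v then push γ X t1 else push γ X t0)

omit [Fintype Γ] in
theorem push_depth {V : Type} (γ : V → Γ) (X : (Γ → Bool) → V → Bool) (t : DT V) :
    (push γ X t).depth ≤ t.depth := by
  induction t with
  | leaf b => exact le_rfl
  | node v t0 t1 h0 h1 =>
    simp only [push, DT.depth]
    have h2 : ∀ c : Bool, (if c = true then push γ X t1 else push γ X t0).depth ≤
        max t0.depth t1.depth := by
      intro c
      split
      · exact h1.trans (le_max_right _ _)
      · exact h0.trans (le_max_left _ _)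
    have h3 := h2 (X (fun _ => false) v)
    have h4 := h2 (X (fun _ => true) v)
    have h5 := max_le h3 h4
    omega

omit [Fintype Γ] in
theorem push_eval {V : Type} {γ : V → Γ} {X : (Γ → Bool) → V → Bool}
    (hX : ∀ v w w', w (γ v) = w' (γ v) → X w v = X w' v) (w : Γ → Bool) (t : DT V) :
    (push γ X t).eval w = t.eval (X w) := by
  induction t with
  | leaf b => rfl
  | node v t0 t1 h0 h1 =>
    simp only [push, DT.eval]
    by_cases hw : w (γ v) = true
    · rw [if_pos hw]
      have h2 : X (fun _ => true) v = X w v := hX v _ _ hw.symm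
      rw [h2]
      split
      · exact h1
      · exact h0
    · rw [if_neg hw]
      have h3 : w (γ v) = false := by simpa using hw
      have h2 : X (fun _ => false) v = X w v := hX v _ _ h3.symm
      rw [h2]
      split
      · exact h1
      · exact h0

theorem reads_push [Nonempty Γ] {e : (U0 ⊕ (Γ × Bool)) ≃ Fin n} (he : Cns e)
    {C : Circ (U0 ⊕ (Γ × Bool))} (hC : NoB C)
    {q : ℕ} {f : (Probe n → Bool) → Bool} (h : Reads q f) : Dm q (fun w => f (ans e C w)) := by
  obtain ⟨t, h1, h2⟩ := h
  choose γ hγ using ans_loc he hC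
  have h3 : t.depth ≤ q := by exact_mod_cast h1
  refine ⟨push γ (ans e C) t, (push_depth _ _ t).trans h3, ?_⟩
  intro w
  rw [push_eval hγ, h2]

/-- a numbering in which the two nodes of a pair have consecutive numbers -/
noncomputable def num (U0 Γ : Type) [Fintype U0] [Fintype Γ] :
    (U0 ⊕ (Γ × Bool)) ≃ Fin (Fintype.card U0 + Fintype.card Γ * 2) :=
  ((Fintype.equivFin U0).sumCongr (((Fintype.equivFin Γ).prodCongr finTwoEquiv.symm).trans
    finProdFinEquiv)).trans finSumFinEquiv

theorem num_inl (u : U0) : ((num U0 Γ) (.inl u)).1 = (Fintype.equivFin U0 u).1 := by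
  simp [num]

theorem num_inr (p : Γ) (c : Bool) : ((num U0 Γ) (.inr (p, c))).1 =
    Fintype.card U0 + ((if c then 1 else 0) + 2 * (Fintype.equivFin Γ p).1) := by
  cases c <;> simp [num, finProdFinEquiv, finTwoEquiv]

theorem num_cns : Cns (num U0 Γ) where
  lt := by
    intro w x y hxy hlt
    rw [Fin.lt_def] at hlt ⊢
    rcases x with x | ⟨x, c⟩ <;> rcases y with y | ⟨y, c'⟩
    · exact hlt
    · simp only [tw]
      rw [num_inr, num_inl]
      have := (Fintype.equivFin U0 x).2
      omega
    · exfalso
      rw [num_inl, num_inr] at hlt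
      have := (Fintype.equivFin U0 y).2
      omega
    · simp only [tw]
      rw [num_inr, num_inr] at hlt ⊢
      have hne : (Fintype.equivFin Γ x).1 ≠ (Fintype.equivFin Γ y).1 := by
        intro h
        apply hxy
        have h2 := (Fintype.equivFin Γ).injective (Fin.ext h)
        simp only [pr, h2]
      have h1 : ∀ b : Bool, (if b then 1 else 0 : ℕ) ≤ 1 := by
        intro b
        cases b <;> simp
      have a1 := h1 c
      have a2 := h1 c'
      have a3 := h1 (xor c (w x))
      have a4 := h1 (xor c' (w y))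
      omega

end lists

end Pool.Agent.WSatQ97
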